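import Pool.Agent.TH197.J1545d

set_option autoImplicit false

/-!
Job 1545 (BC-2, helper636): the axioms are true in the pseudo-model.
-/

namespace Pool.Agent.TH197.J1545

open Pool.Agent.TH636.BC
open Pool.Agent.TH672 (Fm Str upd varStr num digits LogK ReplK Sw upd_same upd_ne upd_upd upd_comm upd_self)

/-! ### atomic formulas -/

section atoms

variable {m : ℕ} {s : St} {ρ : ℕ → DM}

lemma v_inl (r : Real m s ρ) {x : ℕ} (hx : x < m) {a : ℕ} : s.v x = .inl a ↔ ρ x = .inl a := by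
  rw [r.v x hx, hgt_inl]

lemma v_inr (r : Real m s ρ) {x : ℕ} (hx : x < m) {p : ℕ × ℕ} (h : ρ x = .inr p) : s.v x = .inr p.2 := by
  rw [r.v x hx, h]; rfl

lemma succ_iff (h : Ok m s) (r : Real m s ρ) {x y : ℕ} (hx : x < m) (hy : y < m) :
    SuccS s x y ↔ ρ y = Dsucc (ρ x) := by
  rcases hρ : ρ x with a | p
  · have e : s.v x = .inl a := (v_inl r hx).mpr hρ
    simp only [SuccS, e, Dsucc]
    exact v_inl r hy
  · have e := v_inr r hx hρ
    simp only [SuccS, e, Dsucc]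
    rw [eqs_iff h r hx hy, hρ]
    exact eq_comm

lemma add_iff (h : Ok m s) (r : Real m s ρ) {x y z : ℕ} (hx : x < m) (hy : y < m) (hz : z < m) :
    AddS s x y z ↔ ρ z = Dadd (ρ x) (ρ y) := by
  rcases hρ : ρ x with a | p <;> rcases hρ' : ρ y with b | q
  · have e : s.v x = .inl a := (v_inl r hx).mpr hρ
    have e' : s.v y = .inl b := (v_inl r hy).mpr hρ'
    simp only [AddS, e, e', Dadd]
    exact v_inl r hz
  · have e : s.v x = .inl a := (v_inl r hx).mpr hρ
    have e' := v_inr r hy hρ'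
    simp only [AddS, e, e', Dadd]
    rw [eqs_iff h r hy hz, hρ']
    exact eq_comm
  · have e' : s.v y = .inl b := (v_inl r hy).mpr hρ'
    have e := v_inr r hx hρ
    simp only [AddS, e, e', Dadd]
    rw [eqs_iff h r hx hz, hρ]
    exact eq_comm
  · have e := v_inr r hx hρ
    have e' := v_inr r hy hρ'
    simp only [AddS, e, e', Dadd]
    rw [eqs_iff h r hy hz, hρ']
    exact eq_comm

lemma mul_iff (h : Ok m s) (r : Real m s ρ) {x y z : ℕ} (hx : x < m) (hy : y < m) (hz : z < m) :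
    MulS s x y z ↔ ρ z = Dmul (ρ x) (ρ y) := by
  rcases hρ : ρ x with a | p <;> rcases hρ' : ρ y with b | q
  · have e : s.v x = .inl a := (v_inl r hx).mpr hρ
    have e' : s.v y = .inl b := (v_inl r hy).mpr hρ'
    simp only [MulS, e, e', Dmul]
    exact v_inl r hz
  · have e : s.v x = .inl a := (v_inl r hx).mpr hρ
    have e' := v_inr r hy hρ'
    simp only [MulS, e, e', Dmul]
    rw [eqs_iff h r hy hz, hρ']
    exact eq_comm
  · have e' : s.v y = .inl b := (v_inl r hy).mpr hρ'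
    have e := v_inr r hx hρ
    simp only [MulS, e, e', Dmul]
    split_ifs with hb
    · exact v_inl r hz
    · rw [eqs_iff h r hx hz, hρ]
      exact eq_comm
  · have e := v_inr r hx hρ
    have e' := v_inr r hy hρ'
    simp only [MulS, e, e', Dmul]
    rw [eqs_iff h r hx hz, hρ]
    exact eq_comm

lemma op_iff (r : Real m s ρ) {i a b c : ℕ} (hi : i ≠ 3) (ha : a < m) (hb : b < m) (hc : c < m) :
    OpS s i a b c ↔ Dop i (ρ a) (ρ b) (ρ c) := by
  match i, hi with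
  | 0, _ =>
    show (s.v a).isLeft ↔ (ρ a).isLeft
    rw [r.v a ha]
    rcases ρ a with x | x <;> rfl
  | 1, _ =>
    show (∃ p q, s.v a = .inl p ∧ s.v b = .inl q ∧ p < q) ↔ ∃ p q, ρ a = .inl p ∧ ρ b = .inl q ∧ p < q
    simp only [v_inl r ha, v_inl r hb]
  | 2, _ =>
    show (∃ h, s.v a = .inr h ∧ s.v b = .inl h) ↔ ∃ h, (∃ k, ρ a = .inr (k, h)) ∧ ρ b = .inl h
    refine exists_congr fun h => ?_
    rw [v_inl r hb]
    refine and_congr_left fun _ => ?_
    rw [r.v a ha]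
    rcases ρ a with x | ⟨x, y⟩ <;> simp [hgt]
  | 3, hi => exact absurd rfl hi
  | 4, _ =>
    show (∃ p q, s.v a = .inl p ∧ s.v b = .inl q ∧ Erel p q) ↔ ∃ p q, ρ a = .inl p ∧ ρ b = .inl q ∧ Erel p q
    simp only [v_inl r ha, v_inl r hb]
  | 5, _ =>
    show (∃ p q t, s.v a = .inl p ∧ s.v b = .inl q ∧ s.v c = .inl t ∧ Crel p q t) ↔
      ∃ p q t, ρ a = .inl p ∧ ρ b = .inl q ∧ ρ c = .inl t ∧ Crel p q t
    simp only [v_inl r ha, v_inl r hb, v_inl r hc]
  | (i + 6), _ => exact Iff.rfl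

end atoms

/-! ### the transfer -/

/-- the symbol for colours does not occur -/
def ColFree : Fml → Prop
  | .op i _ _ _ _ => i ≠ 3
  | .imp φ ψ => ColFree φ ∧ ColFree ψ
  | .all _ φ => ColFree φ
  | _ => True

theorem transfer {m : ℕ} : ∀ {φ : Fml} {s : St} {ρ : ℕ → DM}, ColFree φ → Vlt m φ → Ok m s → Real m s ρ →
    (Tru m φ s ↔ Fm.Sat D φ ρ) := by
  intro φ
  induction φ with
  | bot => intro s ρ _ _ _ _; exact Iff.rfl
  | eq x y => intro s ρ _ hV h r; exact eqs_iff h r hV.1 hV.2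
  | zero x => intro s ρ _ hV h r; exact v_inl r hV
  | succ x y => intro s ρ _ hV h r; exact succ_iff h r hV.1 hV.2
  | add x y z => intro s ρ _ hV h r; exact add_iff h r hV.1 hV.2.1 hV.2.2
  | mul x y z => intro s ρ _ hV h r; exact mul_iff h r hV.1 hV.2.1 hV.2.2
  | op i a b c d => intro s ρ hC hV h r; exact op_iff r hC hV.1 hV.2.1 hV.2.2.1
  | imp φ ψ ih ih' =>
    intro s ρ hC hV h r
    exact imp_congr (ih hC.1 hV.1 h r) (ih' hC.2 hV.2 h r)
  | all x φ ih =>
    intro s ρ hC hV h r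
    constructor
    · intro H d
      obtain ⟨t, h1, h2, h3⟩ := ext_fwd h r x d
      exact (ih hC hV.2 h1 h3).mp (H t h1 h2)
    · intro H t h1 h2
      obtain ⟨d, h3⟩ := ext_bwd r h1 h2
      exact (ih hC hV.2 h1 h3).mpr (H d)

lemma arith_col : ∀ {φ : Fml}, Arith φ → ColFree φ := by
  intro φ
  induction φ with
  | imp φ ψ ih ih' => intro h; exact ⟨ih h.1, ih' h.2⟩
  | all x φ ih => intro h; exact ih h
  | op i a b c d => intro h; exact absurd h id
  | _ => intro _; trivial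

lemma col_blk {ψ : Fml} (h : ColFree ψ) : ColFree (blk ψ) := ⟨trivial, trivial, h⟩

lemma col_blk_iter {ψ : Fml} (h : ColFree ψ) (n : ℕ) : ColFree (blk^[n] ψ) := by
  induction n with
  | zero => exact h
  | succ n ih => rw [Function.iterate_succ_apply']; exact col_blk ih

lemma col_inst {x n : ℕ} {φ : Fml} (h : ColFree φ) : ColFree (inst x n φ) :=
  ⟨trivial, col_blk_iter (ψ := .all x (.imp (.eq x 0) φ)) ⟨trivial, h⟩ n⟩

lemma col_appn {σ : List Bool} {ψ : Fml} (h : ColFree ψ) : ColFree (appn σ ψ) :=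
  col_inst (col_inst ⟨trivial, trivial, h⟩)

lemma col_robinson : ∀ φ ∈ robinson, ColFree φ := by
  intro φ hφ
  simp only [robinson, List.mem_cons, List.not_mem_nil, or_false] at hφ
  rcases hφ with rfl | rfl | rfl | rfl | rfl | rfl | rfl | rfl | rfl | rfl | rfl | rfl | rfl | rfl | rfl <;>
    simp [ColFree, Fm.ex, Fm.neg, Fm.or]

lemma col_T0 : ∀ φ ∈ T0', ColFree φ := by
  intro φ hφ
  simp only [T0', List.mem_cons, List.not_mem_nil, or_false] at hφ
  rcases hφ with rfl | rfl | rfl | rfl | rfl | rfl | rfl | rfl | rfl | rfl <;>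
    simp [ColFree, Fm.ex, Fm.neg, Fm.or, Fm.and, nat, lt, ht]

lemma col_TE : ∀ φ ∈ TE, ColFree φ := by
  intro φ hφ
  simp only [TE, List.mem_cons, List.not_mem_nil, or_false] at hφ
  rcases hφ with rfl | rfl | rfl | rfl | rfl
  · exact ⟨trivial, col_inst (by simp [ColFree, Ef])⟩
  · exact ⟨by simp [ColFree, Ef], ⟨trivial, col_appn (by simp [ColFree, Ef])⟩⟩
  · exact ⟨by simp [ColFree, Ef], ⟨trivial, col_appn (by simp [ColFree, Cf])⟩⟩
  · simp [ColFree, Cf]
  · simp [ColFree, Cf]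

/-- the transfer for axioms -/
lemma true_of_sat {m : ℕ} {φ : Fml} (hC : ColFree φ) (hS : ∀ v : ℕ → DM, Fm.Sat D φ v) (hV : Vlt m φ) :
    Tr1 m φ := by
  intro s hs
  obtain ⟨ρ, r⟩ := realize hs
  exact (transfer hC hV hs r).mpr (hS ρ)

/-! ### instances in the pseudo-model -/

lemma vlt_blk_iter {m n : ℕ} {ψ : Fml} (h : Vlt m (blk^[n] ψ)) : Vlt m ψ := by
  induction n with
  | zero => exact h
  | succ n ih =>
    rw [Function.iterate_succ_apply'] at h
    exact ih h.2.2.2.2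

lemma vlt_inst {m x n : ℕ} {φ : Fml} (h : Vlt m (inst x n φ)) : 0 < m ∧ x < m ∧ Vlt m φ := by
  have h1 := vlt_blk_iter h.2.2
  exact ⟨h.1, h1.1, h1.2.2⟩

lemma blk_tru {m : ℕ} (h1 : 1 < m) {ψ : Fml} (k : ℕ) : ∀ a : ℕ,
    (∀ t, Ok m t → t.v 0 = .inl (a + k) → Tru m ψ t) → ∀ t, Ok m t → t.v 0 = .inl a → Tru m (blk^[k] ψ) t := by
  induction k with
  | zero => intro a H t ht h; exact H t ht h
  | succ k ih =>
    intro a H t ht h
    rw [Function.iterate_succ_apply']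
    intro t1 ht1 a1 hs t2 ht2 a2 he
    have e1 : t1.v 0 = .inl a := by rw [a1.1 0 (by omega) (by norm_num), h]
    have hs' : SuccS t1 0 1 := hs
    simp only [SuccS, e1] at hs'
    have e2 : t2.v 0 = .inl (a + 1) := by
      have e3 : t2.v 0 = t2.v 1 := he.1
      rw [e3, a2.1 1 h1 (by norm_num), hs']
    exact ih (a + 1) (fun t ht h => H t ht (by rw [h]; congr 1; omega)) t2 ht2 e2

lemma inst_tru {m x n : ℕ} (h1 : 1 < m) (hx : x ≠ 0) {φ : Fml}
    (H : ∀ t, Ok m t → t.v x = .inl n → Tru m φ t) : ∀ s, Ok m s → Tru m (inst x n φ) s := by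
  intro s _ t ht _ hz
  have hz' : t.v 0 = .inl 0 := hz
  refine blk_tru h1 n 0 ?_ t ht hz'
  intro t' _ h0 u hu a he
  apply H u hu
  have e1 : u.v x = u.v 0 := he.1
  rw [e1, a.1 0 (by omega) (Ne.symm hx), h0, zero_add]

/-! ### the axioms on colours -/

/-- the first axiom on colours -/
def c1 : Fml := .all 15 (.all 17 (.all 19 (.all 21 (.imp (ht 15 19) (.imp (ht 17 21) (.imp (lt 19 21)
    (.ex 23 (col 15 17 23))))))))

/-- the second axiom on colours -/
def c2 : Fml := .all 15 (.all 17 (.all 19 (.all 21 (.imp (col 15 17 21) (.imp (col 15 19 21)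
    (.neg (col 17 19 21)))))))

lemma c1_true {m : ℕ} (hV : Vlt m c1) : Tr1 m c1 := by
  intro s _ t1 _ _ t2 _ _ t3 _ _ t ht _ h1 h2 h3 hn
  have v15 : 15 < m := hV.1
  have v17 : 17 < m := hV.2.1
  obtain ⟨h, e1, e2⟩ : ∃ h, t.v 15 = .inr h ∧ t.v 19 = .inl h := h1
  obtain ⟨h', e3, e4⟩ : ∃ h, t.v 17 = .inr h ∧ t.v 21 = .inl h := h2
  obtain ⟨p, q, e5, e6, hpq⟩ : ∃ p q, t.v 19 = .inl p ∧ t.v 21 = .inl q ∧ p < q := h3
  rw [e2] at e5
  rw [e4] at e6
  have e5' := Sum.inl.inj e5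
  have e6' := Sum.inl.inj e6
  have hc : t.c 15 17 ≠ 0 := by
    intro h0
    have := ht.val 15 v15 17 v17 (by rw [e1]; rfl) (by rw [e3]; rfl) h0
    rw [e1, e3] at this
    have := Sum.inr.inj this
    omega
  show False
  refine hn _ (set_ok ht 23 (t.c 15 17 - 1)) (md_agr _ _ _ _) ?_
  show ∃ δ, _ = Sum.inl δ ∧ _ = δ + 1
  refine ⟨t.c 15 17 - 1, md_vx, ?_⟩
  rw [md_c (by norm_num) (by norm_num)]
  omega

lemma c2_true {m : ℕ} (hV : Vlt m c2) : Tr1 m c2 := by
  intro s _ t1 _ _ t2 _ _ t3 _ _ t ht _ h1 h2 h3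
  have v15 : 15 < m := hV.1
  have v17 : 17 < m := hV.2.1
  have v19 : 19 < m := hV.2.2.1
  obtain ⟨δ, e1, e2⟩ : ∃ δ, t.v 21 = .inl δ ∧ t.c 15 17 = δ + 1 := h1
  obtain ⟨δ', e3, e4⟩ : ∃ δ, t.v 21 = .inl δ ∧ t.c 15 19 = δ + 1 := h2
  obtain ⟨δ'', e5, e6⟩ : ∃ δ, t.v 21 = .inl δ ∧ t.c 17 19 = δ + 1 := h3
  rw [e1] at e3 e5
  have e3' := Sum.inl.inj e3
  have e5' := Sum.inl.inj e5
  have := ht.tri 15 v15 17 v17 19 v19 (by omega) (by omega)
  omega

/-! ### the last axiom -/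

lemma neg_sat {P : Fml} (hP : Numerates P) {c y d : ℕ} (h : ¬ PrRel c y d) {ρ : ℕ → DM}
    (ρ2 : ρ 2 = .inl c) (ρ3 : ρ 3 = .inl y) : Fm.Sat D (inst 4 d P.neg) ρ := by
  obtain ⟨k, hk⟩ := hP.neg _ _ _ h
  have hfree : ¬ (P.neg).Free 1 := by
    rintro (h | h)
    · have := hP.free 1 h
      omega
    · exact h
  have hfree0 : ¬ (P.neg).Free 0 := by
    rintro (h | h)
    · have := hP.free 0 h
      omega
    · exact h
  have hs : Fm.Sat D (inst 2 c (inst 3 y (inst 4 d P.neg))) ρ :=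
    sat_proves (S := D) (Γ := robinson) sat_robinson hk ρ
  rw [sat_inst (by norm_num) (by norm_num) (fun h => (free_inst h).1 rfl)
    (fun h => hfree (free_inst (free_inst h).2.2).2.2), sat_inst (by norm_num) (by norm_num)
    (fun h => (free_inst h).1 rfl) (fun h => hfree (free_inst h).2.2)] at hs
  rw [← ρ2, upd_self, ← ρ3, upd_self] at hs
  exact hs

lemma neg_tru {P : Fml} (hP : Numerates P) {m c y d : ℕ} (h : ¬ PrRel c y d) {u : St} (hu : Ok m u)
    (hV : Vlt m (inst 4 d P.neg)) (v2 : 2 < m) (v3 : 3 < m) (u2 : u.v 2 = .inl c) (u3 : u.v 3 = .inl y) :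
    Tru m (inst 4 d P.neg) u := by
  obtain ⟨ρ, r⟩ := realize hu
  exact (transfer (col_inst (φ := P.neg) ⟨arith_col hP.arith, trivial⟩) hV hu r).mpr
    (neg_sat hP h ((v_inl r v2).mp u2) ((v_inl r v3).mp u3))

lemma sg_true {P : Fml} (hP : Numerates P) {m : ℕ} (hcon : ∀ y < m, ¬ Proves (Ax P) y .bot)
    (hV : Vlt m (sg P)) : Tr1 m (sg P) := by
  obtain ⟨_, v29, hV'⟩ := vlt_inst hV
  obtain ⟨v2, _, v3, v33, v35, v37, _, _, _, hV4⟩ := hV'
  refine inst_tru (by omega) (by norm_num) ?_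
  intro t ht e29 t2 ht2 a2 hC t3 ht3 a3 t33 ht33 a33 t35 ht35 a35 u hu a37 hnat hcol hlt
  obtain ⟨p, q, r, f1, f2, f3, hpq⟩ : ∃ p q r, t2.v 29 = .inl p ∧ t2.v 29 = .inl q ∧ t2.v 2 = .inl r ∧
    Crel p q r := hC
  rw [a2.1 29 v29 (by norm_num), e29] at f1 f2
  have f1' := Sum.inl.inj f1
  have f2' := Sum.inl.inj f2
  subst f1'
  rw [← f2'] at hpq
  have hr : r = code (Ax P) := by
    unfold code
    rw [strs_Ax]
    exact hpq
  have u2 : u.v 2 = .inl r := by
    rw [a37.1 2 v2 (by norm_num), a35.1 2 v2 (by norm_num), a33.1 2 v2 (by norm_num), a3.1 2 v2 (by norm_num), f3]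
  obtain ⟨y, u3⟩ : ∃ y, u.v 3 = .inl y := by
    have hn : (u.v 3).isLeft := hnat
    rcases h3 : u.v 3 with y | y
    · exact ⟨y, rfl⟩
    · rw [h3] at hn; exact absurd hn (by simp)
  obtain ⟨δ, g1, g2⟩ : ∃ δ, u.v 37 = .inl δ ∧ u.c 33 35 = δ + 1 := hcol
  have g3 : ¬ ∃ p q, u.v 37 = .inl p ∧ u.v 3 = .inl q ∧ p < q := hlt
  have g4 : y ≤ δ := by
    by_contra h
    exact g3 ⟨δ, y, g1, u3, by omega⟩
  have g5 := hu.le 33 v33 35 v35
  have hnot : ¬ PrRel (code (Ax P)) y (code [Fm.bot]) := by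
    rintro ⟨Γ, φ, h1, h2, h3⟩
    have h1' := code_inj h1
    have h2' := code_inj h2
    subst h1'
    have h2'' : φ = Fm.bot := (List.cons.inj h2').1.symm
    subst h2''
    exact hcon y (by omega) h3
  exact neg_tru hP hnot hu hV4 v2 v3 (by rw [u2, hr]) u3

attribute [local irreducible] tn in
theorem axS : AxS := by
  intro P hP m hcon φ hφ hV
  have hφ' : φ = sg P ∨ φ ∈ TB := by
    unfold Ax at hφ
    exact List.mem_cons.mp hφ
  clear hφ
  rcases hφ' with hφ | hφ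
  · subst hφ
    have h := @sg_true P hP m hcon hV
    exact h
  · unfold TB at hφ
    rw [List.mem_append, List.mem_append] at hφ
    rcases hφ with (hφ | hφ) | hφ
    · exact true_of_sat (col_robinson φ hφ) (sat_robinson φ hφ) hV
    · have : φ ∈ T0' ∨ φ = c1 ∨ φ = c2 := by
        have e : T0 = T0' ++ [c1, c2] := rfl
        rw [e, List.mem_append] at hφ
        rcases hφ with h | h
        · exact Or.inl h
        · right
          simpa using h
      rcases this with h | h | h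
      · exact true_of_sat (col_T0 φ h) (sat_T0 φ h) hV
      · rw [h] at hV ⊢
        exact c1_true hV
      · rw [h] at hV ⊢
        exact c2_true hV
    · exact true_of_sat (col_TE φ hφ) (sat_TE φ hφ) hV

end Pool.Agent.TH197.J1545
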