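import Pool.Agent.TH636.BC.PM

set_option autoImplicit false

/-!
Job 1545 (BC-2, helper636): strings, numbers and instances.
-/

namespace Pool.Agent.TH197.J1545

open Pool.Agent.TH636.BC
open Pool.Agent.TH672 (Fm Str upd varStr num digits LogK ReplK Sw upd_same upd_ne upd_upd upd_comm upd_self)

/-! ### numbers -/

lemma num_snoc (w : List Bool) (b : Bool) : num (w ++ [b]) = 2 * num w + if b then 2 else 1 := by
  unfold num; rw [List.foldl_append]; rfl

lemma num_app (w σ : List Bool) : num (w ++ σ) = 2 ^ σ.length * num w + num σ := by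
  induction σ using List.reverseRecOn with
  | nil => simp [num]
  | append_singleton σ b ih =>
    rw [← List.append_assoc, num_snoc, ih, num_snoc, List.length_append, List.length_singleton, pow_succ]
    ring

lemma digits_zero : digits 0 = [] := by
  rw [digits]; simp

lemma digits_pos {n : ℕ} (h : n ≠ 0) : digits n = digits ((n - 1) / 2) ++ [decide (n % 2 = 0)] := by
  rw [digits]; simp [h]

lemma digits_odd (n : ℕ) : digits (2 * n + 1) = digits n ++ [false] := by
  rw [digits_pos (by omega)]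
  have e1 : (2 * n + 1 - 1) / 2 = n := by omega
  have e2 : ¬ ((2 * n + 1) % 2 = 0) := by omega
  rw [e1, decide_eq_false e2]

lemma digits_even (n : ℕ) : digits (2 * n + 2) = digits n ++ [true] := by
  rw [digits_pos (by omega)]
  have e1 : (2 * n + 2 - 1) / 2 = n := by omega
  have e2 : (2 * n + 2) % 2 = 0 := by omega
  rw [e1, decide_eq_true e2]

lemma digits_num (w : List Bool) : digits (num w) = w := by
  induction w using List.reverseRecOn with
  | nil => exact digits_zero
  | append_singleton w b ih =>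
    rw [num_snoc]
    cases b
    · simp only [Bool.false_eq_true, if_false]
      rw [digits_odd, ih]
    · simp only [if_true]
      rw [digits_even, ih]

lemma num_inj {u w : List Bool} (h : num u = num w) : u = w := by
  rw [← digits_num u, ← digits_num w, h]

/-! ### unique readability -/

theorem varStr_pre : ∀ {x y : ℕ} {u w : List Bool}, varStr x ++ u = varStr y ++ w →
    x = y ∧ u = w := by
  intro x
  induction x with
  | zero =>
    intro y u w h
    cases y with
    | zero => simpa [varStr] using h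
    | succ y => simp [varStr, List.replicate_succ] at h
  | succ x ih =>
    intro y u w h
    cases y with
    | zero => simp [varStr, List.replicate_succ] at h
    | succ y =>
      have h' : varStr x ++ u = varStr y ++ w := by
        simpa [varStr, List.replicate_succ] using h
      obtain ⟨rfl, rfl⟩ := ih h'
      exact ⟨rfl, rfl⟩

theorem str_pre : ∀ {φ ψ : Fml} {u w : List Bool}, str φ ++ u = str ψ ++ w → φ = ψ ∧ u = w := by
  intro φ
  induction φ with
  | bot =>
    intro ψ u w h
    cases ψ <;> simp [str] at h ⊢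
    exact h
  | eq x y =>
    intro ψ u w h
    cases ψ <;> simp [str] at h ⊢
    obtain ⟨rfl, h1⟩ := varStr_pre h
    obtain ⟨rfl, rfl⟩ := varStr_pre h1
    exact ⟨⟨rfl, rfl⟩, rfl⟩
  | zero x =>
    intro ψ u w h
    cases ψ <;> simp [str] at h ⊢
    obtain ⟨rfl, h1⟩ := varStr_pre h
    exact ⟨rfl, h1⟩
  | succ x y =>
    intro ψ u w h
    cases ψ <;> simp [str] at h ⊢
    obtain ⟨rfl, h1⟩ := varStr_pre h
    obtain ⟨rfl, rfl⟩ := varStr_pre h1
    exact ⟨⟨rfl, rfl⟩, rfl⟩
  | add x y z =>
    intro ψ u w h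
    cases ψ <;> simp [str] at h ⊢
    obtain ⟨rfl, h1⟩ := varStr_pre h
    obtain ⟨rfl, h2⟩ := varStr_pre h1
    obtain ⟨rfl, rfl⟩ := varStr_pre h2
    exact ⟨⟨rfl, rfl, rfl⟩, rfl⟩
  | mul x y z =>
    intro ψ u w h
    cases ψ <;> simp [str] at h ⊢
    obtain ⟨rfl, h1⟩ := varStr_pre h
    obtain ⟨rfl, h2⟩ := varStr_pre h1
    obtain ⟨rfl, rfl⟩ := varStr_pre h2
    exact ⟨⟨rfl, rfl, rfl⟩, rfl⟩
  | op i a b c d =>
    intro ψ u w h
    cases ψ <;> simp [str] at h ⊢
    obtain ⟨rfl, h1⟩ := varStr_pre h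
    obtain ⟨rfl, h2⟩ := varStr_pre h1
    obtain ⟨rfl, h3⟩ := varStr_pre h2
    obtain ⟨rfl, h4⟩ := varStr_pre h3
    obtain ⟨rfl, rfl⟩ := varStr_pre h4
    exact ⟨⟨rfl, rfl, rfl, rfl, rfl⟩, rfl⟩
  | imp φ₁ φ₂ ih₁ ih₂ =>
    intro ψ u w h
    cases ψ <;> simp [str] at h ⊢
    obtain ⟨rfl, h1⟩ := ih₁ h
    obtain ⟨rfl, rfl⟩ := ih₂ h1
    exact ⟨⟨rfl, rfl⟩, rfl⟩
  | all x φ ih =>
    intro ψ u w h
    cases ψ <;> simp [str] at h ⊢
    obtain ⟨rfl, h1⟩ := varStr_pre h
    obtain ⟨rfl, rfl⟩ := ih h1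
    exact ⟨⟨rfl, rfl⟩, rfl⟩

theorem str_ne_nil (φ : Fml) : str φ ≠ [] := by
  cases φ <;> simp [str]

theorem strs_cons (φ : Fml) (Γ : List Fml) : strs (φ :: Γ) = str φ ++ strs Γ := rfl

theorem strs_append (Γ Δ : List Fml) : strs (Γ ++ Δ) = strs Γ ++ strs Δ := by
  simp [strs, List.flatMap_append]

theorem strs_inj : ∀ {Γ Δ : List Fml}, strs Γ = strs Δ → Γ = Δ
  | [], [], _ => rfl
  | [], φ :: Δ, h => by
    rw [strs_cons] at h
    have := str_ne_nil φ
    simp [strs] at h
    exact absurd h.1 this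
  | φ :: Γ, [], h => by
    rw [strs_cons] at h
    have := str_ne_nil φ
    simp [strs] at h
    exact absurd h.1 this
  | φ :: Γ, ψ :: Δ, h => by
    rw [strs_cons, strs_cons] at h
    obtain ⟨rfl, h1⟩ := str_pre h
    rw [strs_inj h1]

theorem code_inj {Γ Δ : List Fml} (h : code Γ = code Δ) : Γ = Δ := strs_inj (num_inj h)

/-! ### the string of an instance -/

lemma str_blk (ψ : Fml) : str (blk ψ) = bs ++ str ψ := by
  simp [blk, bs, str]

lemma str_blk_iter (n : ℕ) (ψ : Fml) : str (blk^[n] ψ) = (List.replicate n bs).flatten ++ str ψ := by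
  induction n with
  | zero => simp
  | succ n ih =>
    rw [Function.iterate_succ_apply', str_blk, ih, List.replicate_succ, List.flatten_cons, List.append_assoc]

lemma str_inst (n : ℕ) (φ : Fml) : str (inst 29 n φ) = hd ++ (List.replicate n bs).flatten ++ tl ++ str φ := by
  have e : str (inst 29 n φ) = hd ++ str (blk^[n] (.all 29 (.imp (.eq 29 0) φ))) := by
    simp [inst, hd, str]
  rw [e, str_blk_iter]
  simp [tl, str]

lemma strs_Ax (P : Fml) : strs (Ax P) = hd ++ (List.replicate (tn P) bs).flatten ++ tl ++ digits (tn P) := by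
  have e : digits (tn P) = strs (sgf P :: TB) := digits_num _
  rw [e]
  unfold Ax sg
  rw [strs_cons, strs_cons, str_inst]
  simp [List.append_assoc]

end Pool.Agent.TH197.J1545
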