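import Pool.Agent.TH197.J1545a

set_option autoImplicit false

/-!
Job 1545 (BC-2, helper636): soundness of the calculus, the real structure, the axioms in it.
-/

namespace Pool.Agent.TH197.J1545

open Pool.Agent.TH636.BC
open Pool.Agent.TH672 (Fm Str upd varStr num digits LogK ReplK Sw upd_same upd_ne upd_upd upd_comm upd_self)

/-! ### coincidence, substitution, soundness -/

theorem sat_congr {S : Str ℕ} : ∀ {φ : Fml} {v w : ℕ → S.M}, (∀ x, φ.Free x → v x = w x) →
    (Fm.Sat S φ v ↔ Fm.Sat S φ w) := by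
  intro φ
  induction φ with
  | bot => intro v w _; rfl
  | eq x y => intro v w h; simp [h x (Or.inl rfl), h y (Or.inr rfl)]
  | zero x => intro v w h; simp [h x rfl]
  | succ x y => intro v w h; simp [h x (Or.inl rfl), h y (Or.inr rfl)]
  | add x y z =>
    intro v w h
    simp [h x (Or.inl rfl), h y (Or.inr (Or.inl rfl)), h z (Or.inr (Or.inr rfl))]
  | mul x y z =>
    intro v w h
    simp [h x (Or.inl rfl), h y (Or.inr (Or.inl rfl)), h z (Or.inr (Or.inr rfl))]
  | op i a b c d =>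
    intro v w h
    simp [h a (Or.inl rfl), h b (Or.inr (Or.inl rfl)), h c (Or.inr (Or.inr (Or.inl rfl))),
      h d (Or.inr (Or.inr (Or.inr rfl)))]
  | imp φ ψ ih ih' =>
    intro v w h
    simp only [Fm.sat_imp]
    rw [ih fun x hx => h x (Or.inl hx), ih' fun x hx => h x (Or.inr hx)]
  | all u φ ih =>
    intro v w h
    simp only [Fm.sat_all]
    refine forall_congr' fun a => ih fun x hx => ?_
    unfold upd
    split_ifs with hu
    · rfl
    · exact h x ⟨hu, hx⟩

theorem sat_upd {S : Str ℕ} {φ : Fml} {v : ℕ → S.M} {x : ℕ} {a : S.M} (h : ¬ φ.Free x) :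
    Fm.Sat S φ (upd v x a) ↔ Fm.Sat S φ v := by
  refine sat_congr fun y hy => upd_ne v a ?_
  rintro rfl
  exact h hy

theorem subst_id {x y : ℕ} : ∀ {φ : Fml}, ¬ φ.Free x → φ.subst x y = φ := by
  intro φ
  induction φ with
  | bot => intro _; rfl
  | eq u v =>
    intro h
    simp only [Fm.Free, not_or] at h
    simp [Fm.subst, Pool.Agent.TH672.Form.ren, Ne.symm h.1, Ne.symm h.2]
  | zero u =>
    intro h
    simp only [Fm.Free] at h
    simp [Fm.subst, Pool.Agent.TH672.Form.ren, Ne.symm h]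
  | succ u v =>
    intro h
    simp only [Fm.Free, not_or] at h
    simp [Fm.subst, Pool.Agent.TH672.Form.ren, Ne.symm h.1, Ne.symm h.2]
  | add u v w =>
    intro h
    simp only [Fm.Free, not_or] at h
    simp [Fm.subst, Pool.Agent.TH672.Form.ren, Ne.symm h.1, Ne.symm h.2.1, Ne.symm h.2.2]
  | mul u v w =>
    intro h
    simp only [Fm.Free, not_or] at h
    simp [Fm.subst, Pool.Agent.TH672.Form.ren, Ne.symm h.1, Ne.symm h.2.1, Ne.symm h.2.2]
  | op i a b c d =>
    intro h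
    simp only [Fm.Free, not_or] at h
    simp [Fm.subst, Pool.Agent.TH672.Form.ren, Ne.symm h.1, Ne.symm h.2.1, Ne.symm h.2.2.1, Ne.symm h.2.2.2]
  | imp φ ψ ih ih' =>
    intro h
    simp only [Fm.Free, not_or] at h
    simp [Fm.subst, ih h.1, ih' h.2]
  | all u φ ih =>
    intro h
    simp only [Fm.Free, not_and] at h
    simp only [Fm.subst]
    split_ifs with hu
    · rfl
    · rw [ih (h (Ne.symm hu))]

lemma upd_ren {M : Type} (v : ℕ → M) (x y u : ℕ) : v (Pool.Agent.TH672.Form.ren x y u) = upd v x (v y) u := by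
  unfold Pool.Agent.TH672.Form.ren upd
  split_ifs <;> rfl

theorem sat_subst {S : Str ℕ} {x y : ℕ} : ∀ {φ : Fml} {v : ℕ → S.M}, φ.FreeFor y x →
    (Fm.Sat S (φ.subst x y) v ↔ Fm.Sat S φ (upd v x (v y))) := by
  intro φ
  induction φ with
  | bot => intro v _; rfl
  | eq u w => intro v _; simp only [Fm.subst, Fm.sat_eq, upd_ren v]
  | zero u => intro v _; simp only [Fm.subst, Fm.sat_zero, upd_ren v]
  | succ u w => intro v _; simp only [Fm.subst, Fm.sat_succ, upd_ren v]
  | add u w z => intro v _; simp only [Fm.subst, Fm.sat_add, upd_ren v]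
  | mul u w z => intro v _; simp only [Fm.subst, Fm.sat_mul, upd_ren v]
  | op i a b c d => intro v _; simp only [Fm.subst, Fm.sat_op, upd_ren v]
  | imp φ ψ ih ih' =>
    intro v h
    simp only [Fm.subst, Fm.sat_imp]
    rw [ih h.1, ih' h.2]
  | all u φ ih =>
    intro v h
    by_cases hu : u = x
    · subst hu
      simp only [Fm.subst, if_true, Fm.sat_all, upd_upd]
    · simp only [Fm.subst, if_neg hu, Fm.sat_all]
      refine forall_congr' fun a => ?_
      rcases h with h | h | h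
      · exact absurd h hu
      · rw [subst_id h, upd_comm v _ _ (Ne.symm hu), sat_upd h]
      · rw [ih h.2, upd_comm v _ _ (Ne.symm hu), upd_ne v a (Ne.symm h.1)]

lemma sw_eq {M : Type} {v : ℕ → M} {x y u u' : ℕ} (h : Sw x y u u') (e : v x = v y) : v u' = v u := by
  rcases h with h | ⟨h, h'⟩
  · rw [h]
  · rw [h, h', e]

theorem sat_log {S : Str ℕ} {φ : Fml} (h : LogK φ) (v : ℕ → S.M) : Fm.Sat S φ v := by
  cases h with
  | k φ ψ => intro h _; exact h
  | s φ ψ χ => intro h h' h''; exact h h'' (h' h'')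
  | dn φ => intro h; by_contra h'; exact h h'
  | inst x y φ hf =>
    intro h
    exact (sat_subst hf).mpr (h (v y))
  | dist x φ ψ hf =>
    intro h h' a
    exact h a ((sat_upd hf).mpr h')
  | refl x => exact rfl
  | repl x y φ ψ hr =>
    intro e
    have e' : v x = v y := e
    cases hr with
    | eq h1 h2 => intro h; exact (sw_eq h1 e').trans (Eq.trans h (sw_eq h2 e').symm)
    | zero h1 => intro h; simpa only [Fm.sat_zero, sw_eq h1 e'] using h
    | succ h1 h2 => intro h; simpa only [Fm.sat_succ, sw_eq h1 e', sw_eq h2 e'] using h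
    | add h1 h2 h3 => intro h; simpa only [Fm.sat_add, sw_eq h1 e', sw_eq h2 e', sw_eq h3 e'] using h
    | mul h1 h2 h3 => intro h; simpa only [Fm.sat_mul, sw_eq h1 e', sw_eq h2 e', sw_eq h3 e'] using h
    | op h1 h2 h3 h4 =>
      intro h
      simpa only [Fm.sat_op, sw_eq h1 e', sw_eq h2 e', sw_eq h3 e', sw_eq h4 e'] using h

theorem sat_proof {S : Str ℕ} {Γ : List Fml} (hΓ : ∀ φ ∈ Γ, ∀ v : ℕ → S.M, Fm.Sat S φ v) :
    ∀ {π : List Fml}, IsProof Γ π → ∀ φ ∈ π, ∀ v : ℕ → S.M, Fm.Sat S φ v := by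
  intro π
  induction π with
  | nil => intro _ φ h; simp at h
  | cons ψ π ih =>
    intro h φ hφ v
    obtain ⟨h1, h2⟩ := h
    rcases List.mem_cons.mp hφ with rfl | hφ
    · rcases h2 with h2 | h2 | ⟨χ, h3, h4⟩ | ⟨χ, h3, x, rfl⟩
      · exact hΓ _ h2 v
      · exact sat_log h2 v
      · exact ih h1 _ h4 v (ih h1 _ h3 v)
      · intro a; exact ih h1 _ h3 _
    · exact ih h1 φ hφ v

theorem sat_proves {S : Str ℕ} {Γ : List Fml} (hΓ : ∀ φ ∈ Γ, ∀ v : ℕ → S.M, Fm.Sat S φ v) {k : ℕ} {φ : Fml}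
    (h : Proves Γ k φ) (v : ℕ → S.M) : Fm.Sat S φ v := by
  obtain ⟨π, h1, _⟩ := h
  exact sat_proof hΓ h1 φ (List.mem_cons_self ..) v

/-! ### the real structure -/

/-- numbers and nodes (index, height) -/
abbrev DM : Type := ℕ ⊕ (ℕ × ℕ)

/-- successor -/
def Dsucc : DM → DM
  | .inl a => .inl (a + 1)
  | .inr p => .inr p

/-- addition -/
def Dadd : DM → DM → DM
  | .inl a, .inl b => .inl (a + b)
  | .inr p, .inl _ => .inr p
  | _, .inr q => .inr q

/-- multiplication -/
def Dmul : DM → DM → DM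
  | .inl a, .inl b => .inl (a * b)
  | .inr p, .inl b => if b = 0 then .inl 0 else .inr p
  | .inl _, .inr q => .inr q
  | .inr p, .inr _ => .inr p

/-- the additional symbols -/
def Dop (i : ℕ) (a b c : DM) : Prop :=
  match i with
  | 0 => a.isLeft
  | 1 => ∃ p q, a = .inl p ∧ b = .inl q ∧ p < q
  | 2 => ∃ h, (∃ k, a = .inr (k, h)) ∧ b = .inl h
  | 3 => False
  | 4 => ∃ p q, a = .inl p ∧ b = .inl q ∧ Erel p q
  | 5 => ∃ p q r, a = .inl p ∧ b = .inl q ∧ c = .inl r ∧ Crel p q r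
  | _ => False

/-- the real structure -/
@[reducible] def D : Str ℕ where
  M := DM
  ne := ⟨.inl 0⟩
  zero x := x = .inl 0
  succ x y := y = Dsucc x
  add x y z := z = Dadd x y
  mul x y z := z = Dmul x y
  op i a b c _ := Dop i a b c

section dl

variable (v : ℕ → DM)

lemma D_zero (x : ℕ) : Fm.Sat D (.zero x) v ↔ v x = .inl 0 := Iff.rfl
lemma D_succ (x y : ℕ) : Fm.Sat D (.succ x y) v ↔ v y = Dsucc (v x) := Iff.rfl
lemma D_add (x y z : ℕ) : Fm.Sat D (.add x y z) v ↔ v z = Dadd (v x) (v y) := Iff.rfl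
lemma D_mul (x y z : ℕ) : Fm.Sat D (.mul x y z) v ↔ v z = Dmul (v x) (v y) := Iff.rfl
lemma D_op (i a b c d : ℕ) : Fm.Sat D (.op i a b c d) v ↔ Dop i (v a) (v b) (v c) := Iff.rfl
lemma D_eq (x y : ℕ) : Fm.Sat D (.eq x y) v ↔ v x = v y := Iff.rfl

lemma D_all (x : ℕ) (φ : Fml) : Fm.Sat D (.all x φ) v ↔ ∀ a : DM, Fm.Sat D φ (upd v x a) := Iff.rfl
lemma D_ex (x : ℕ) (φ : Fml) : Fm.Sat D (.ex x φ) v ↔ ∃ a : DM, Fm.Sat D φ (upd v x a) := Fm.sat_ex D φ v x

end dl

lemma Dadd_zero (x : DM) : Dadd x (.inl 0) = x := by rcases x with a | p <;> rfl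
lemma Dadd_succ (x y : DM) : Dadd x (Dsucc y) = Dsucc (Dadd x y) := by
  rcases x with a | p <;> rcases y with b | q <;> rfl
lemma Dmul_zero (x : DM) : Dmul x (.inl 0) = .inl 0 := by rcases x with a | p <;> rfl
lemma Dmul_succ (x y : DM) : Dmul x (Dsucc y) = Dadd (Dmul x y) x := by
  rcases x with a | p <;> rcases y with b | q <;> try rfl
  by_cases hb : b = 0
  · subst hb; rfl
  · simp only [Dmul, Dsucc, if_neg hb, Nat.succ_ne_zero, if_false, Dadd]

lemma Dsucc_ne (x : DM) : Dsucc x ≠ .inl 0 := by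
  rcases x with a | p <;> simp [Dsucc]
lemma Dsucc_inj {x y : DM} (h : Dsucc x = Dsucc y) : x = y := by
  rcases x with a | p <;> rcases y with b | q <;> simp_all [Dsucc]
lemma Dsucc_surj (x : DM) (h : x ≠ .inl 0) : ∃ y, x = Dsucc y := by
  rcases x with a | p
  · rcases a with _ | a
    · exact absurd rfl h
    · exact ⟨.inl a, rfl⟩
  · exact ⟨.inr p, rfl⟩

theorem sat_robinson : ∀ φ ∈ robinson, ∀ v : ℕ → DM, Fm.Sat D φ v := by
  intro φ hφ v
  simp only [robinson, List.mem_cons, List.not_mem_nil, or_false] at hφ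
  rcases hφ with rfl | rfl | rfl | rfl | rfl | rfl | rfl | rfl | rfl | rfl | rfl | rfl | rfl | rfl | rfl
  · rw [D_ex]; exact ⟨.inl 0, rfl⟩
  · intro a b h1 h2
    simp only [D_zero, D_eq, upd, if_true, if_false] at *
    simp_all
  · intro a
    rw [D_ex]
    exact ⟨Dsucc a, by simp [D_succ, upd]⟩
  · intro a b c h1 h2
    simp only [D_succ, D_eq, upd] at *
    simp_all
  · intro a b
    rw [D_ex]
    exact ⟨Dadd a b, by simp [D_add, upd]⟩
  · intro a b c d h1 h2
    simp only [D_add, D_eq, upd] at *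
    simp_all
  · intro a b
    rw [D_ex]
    exact ⟨Dmul a b, by simp [D_mul, upd]⟩
  · intro a b c d h1 h2
    simp only [D_mul, D_eq, upd] at *
    simp_all
  · intro a b h1 h2
    simp only [D_succ, D_zero, upd] at *
    simp only [if_true, one_ne_zero, zero_ne_one, if_false] at h1 h2
    exact Dsucc_ne a (h1.symm.trans h2)
  · intro a b c h1 h2
    simp only [D_succ, D_eq, upd] at *
    simp at h1 h2 ⊢
    exact Dsucc_inj (h1.symm.trans h2)
  · intro a h1
    have h1' : ¬ (a = .inl 0) := fun h => h1 (by simpa [D_zero, upd] using h)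
    rw [D_ex]
    obtain ⟨y, hy⟩ := Dsucc_surj a h1'
    exact ⟨y, by simp [D_succ, upd, hy]⟩
  · intro a b h1
    simp only [D_zero, D_add, upd] at *
    simp at h1 ⊢
    rw [h1, Dadd_zero]
  · intro a b c d e h1 h2 h3
    simp only [D_succ, D_add, upd] at *
    simp at h1 h2 h3 ⊢
    rw [h1, h3, h2, Dadd_succ]
  · intro a b h1
    simp only [D_zero, D_mul, upd] at *
    simp at h1 ⊢
    rw [h1, Dmul_zero]
  · intro a b c d e h1 h2 h3
    simp only [D_succ, D_add, D_mul, upd] at *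
    simp at h1 h2 h3 ⊢
    rw [h1, h3, h2, Dmul_succ]

end Pool.Agent.TH197.J1545
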