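import Pool.Agent.TH197.J1545b

set_option autoImplicit false

/-!
Job 1545 (BC-2, helper636): instances in the real structure, the axioms `T0` and `TE` in it.
-/

namespace Pool.Agent.TH197.J1545

open Pool.Agent.TH636.BC
open Pool.Agent.TH672 (Fm Str upd varStr num digits LogK ReplK Sw upd_same upd_ne upd_upd upd_comm upd_self)

/-! ### instances -/

lemma free_blk {z : ℕ} {ψ : Fml} (h : (blk ψ).Free z) : z ≠ 1 ∧ (z = 0 ∨ ψ.Free z) := by
  obtain ⟨h1, h2⟩ := h
  refine ⟨h1, ?_⟩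
  rcases h2 with (h2 | h2) | ⟨h2, (h3 | h3) | h3⟩
  · exact Or.inl h2
  · exact absurd h2 h1
  · exact Or.inl h3
  · exact absurd h3 h1
  · exact Or.inr h3

lemma free_blk_iter {z : ℕ} (n : ℕ) {ψ : Fml} (h : (blk^[n] ψ).Free z) :
    z = 0 ∨ ψ.Free z := by
  induction n with
  | zero => exact Or.inr h
  | succ n ih =>
    rw [Function.iterate_succ_apply'] at h
    rcases (free_blk h).2 with h | h
    · exact Or.inl h
    · exact ih h

lemma free_inst {z x n : ℕ} {φ : Fml} (h : (inst x n φ).Free z) : z ≠ 0 ∧ z ≠ x ∧ φ.Free z := by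
  obtain ⟨h0, h1 | h1⟩ := h
  · exact absurd h1 h0
  · refine ⟨h0, ?_⟩
    rcases free_blk_iter n h1 with h1 | ⟨h1, (h2 | h2) | h2⟩
    · exact absurd h1 h0
    · exact absurd h2 h1
    · exact absurd h2 h0
    · exact ⟨h1, h2⟩

lemma free_one_inst {x n : ℕ} {φ : Fml} (h : ¬ φ.Free 1) : ¬ (inst x n φ).Free 1 := fun h' => h (free_inst h').2.2

lemma sat_blk {ψ : Fml} (h : ¬ ψ.Free 1) (v : ℕ → DM) :
    Fm.Sat D (blk ψ) v ↔ Fm.Sat D ψ (upd v 0 (Dsucc (v 0))) := by
  have key : ∀ b : DM, Fm.Sat D ψ (upd (upd v 1 b) 0 b) ↔ Fm.Sat D ψ (upd v 0 b) := by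
    intro b
    rw [upd_comm v _ _ one_ne_zero, sat_upd h]
  constructor
  · intro H
    have := H (Dsucc (v 0)) (by simp [upd]) (Dsucc (v 0)) (by simp [upd])
    exact (key _).mp this
  · intro H a ha b hb
    have ha' : a = Dsucc (v 0) := by simpa [D_succ, upd] using ha
    have hb' : b = a := by simpa [D_eq, upd] using hb
    subst hb'
    rw [ha']
    exact (key _).mpr H

lemma not_free_iter {n : ℕ} {ψ : Fml} (h : ¬ ψ.Free 1) : ¬ (blk^[n] ψ).Free 1 := by
  intro h'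
  rcases free_blk_iter n h' with h'' | h''
  · exact one_ne_zero h''
  · exact h h''

lemma sat_blk_iter {ψ : Fml} (h : ¬ ψ.Free 1) (n : ℕ) : ∀ v : ℕ → DM,
    (Fm.Sat D (blk^[n] ψ) v ↔ Fm.Sat D ψ (upd v 0 (Dsucc^[n] (v 0)))) := by
  induction n with
  | zero => intro v; simp [upd_self]
  | succ n ih =>
    intro v
    rw [Function.iterate_succ_apply', sat_blk (not_free_iter h), ih, upd_upd, upd_same,
      Function.iterate_succ_apply]

lemma Dsucc_iter (n a : ℕ) : Dsucc^[n] (.inl a) = .inl (a + n) := by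
  induction n with
  | zero => rfl
  | succ n ih => rw [Function.iterate_succ_apply', ih]; rfl

lemma sat_inst {x n : ℕ} {φ : Fml} (hx : x ≠ 0) (hx1 : x ≠ 1) (h0 : ¬ φ.Free 0) (h1 : ¬ φ.Free 1) (v : ℕ → DM) :
    Fm.Sat D (inst x n φ) v ↔ Fm.Sat D φ (upd v x (.inl n)) := by
  have hψ : ¬ (Fm.all x (.imp (.eq x 0) φ)).Free 1 := by
    rintro ⟨h, (h' | h') | h'⟩
    · exact h h'
    · exact one_ne_zero h'
    · exact h1 h'
  have key : ∀ a b : DM, Fm.Sat D φ (upd (upd v 0 a) x b) ↔ Fm.Sat D φ (upd v x b) := by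
    intro a b
    rw [upd_comm v _ _ (Ne.symm hx), sat_upd h0]
  constructor
  · intro H
    have H1 := H (.inl 0) (by simp [upd])
    rw [sat_blk_iter hψ, upd_upd, upd_same, Dsucc_iter, zero_add] at H1
    have := H1 (.inl n) (by simp [upd, Ne.symm hx])
    exact (key _ _).mp this
  · intro H a ha
    have ha' : a = .inl 0 := by simpa [D_zero, upd] using ha
    rw [sat_blk_iter hψ, upd_upd, upd_same, ha', Dsucc_iter, zero_add]
    intro b hb
    have hb' : b = .inl n := by simpa [D_eq, upd, Ne.symm hx] using hb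
    rw [hb']
    exact (key _ _).mpr H

/-! ### the axioms -/

lemma s0 (x y z w : ℕ) (v : ℕ → DM) : Fm.Sat D (.op 0 x y z w) v ↔ ∃ p, v x = .inl p := by
  have : Fm.Sat D (.op 0 x y z w) v ↔ (v x).isLeft := Iff.rfl
  rw [this]
  rcases v x with a | a <;> simp
lemma s1 (x y z w : ℕ) (v : ℕ → DM) : Fm.Sat D (.op 1 x y z w) v ↔
    ∃ p q, v x = .inl p ∧ v y = .inl q ∧ p < q := Iff.rfl
lemma s2 (x y z w : ℕ) (v : ℕ → DM) : Fm.Sat D (.op 2 x y z w) v ↔
    ∃ h, (∃ k, v x = .inr (k, h)) ∧ v y = .inl h := Iff.rfl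
lemma s4 (x y z w : ℕ) (v : ℕ → DM) : Fm.Sat D (.op 4 x y z w) v ↔
    ∃ p q, v x = .inl p ∧ v y = .inl q ∧ Erel p q := Iff.rfl
lemma s5 (x y z w : ℕ) (v : ℕ → DM) : Fm.Sat D (.op 5 x y z w) v ↔
    ∃ p q r, v x = .inl p ∧ v y = .inl q ∧ v z = .inl r ∧ Crel p q r := Iff.rfl

/-- the axioms `T0` without the two axioms on colours -/
def T0' : List Fml := [
  .ex 15 (.zero 15),
  .all 15 (.ex 17 (.succ 15 17)),
  .all 15 (.all 17 (.imp (.succ 15 17) (.neg (.zero 17)))),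
  .all 15 (.imp (.zero 15) (nat 15)),
  .all 15 (.all 17 (.imp (nat 15) (.imp (.succ 15 17) (nat 17)))),
  .all 15 (.all 17 (.imp (.zero 15) (.neg (lt 17 15)))),
  .all 15 (.all 17 (.all 19 (.imp (.succ 15 17) (.imp (lt 19 17) (.or (lt 19 15) (.eq 19 15)))))),
  .all 15 (.all 17 (.imp (nat 15) (.imp (nat 17)
    (.ex 19 (.and (nat 19) (.all 21 (.imp (lt 19 21) (.and (lt 15 21) (lt 17 21))))))))),
  .all 15 (.all 17 (.imp (ht 15 17) (nat 17))),
  .all 15 (.imp (nat 15) (.ex 17 (.ex 19 (.and (ht 17 19) (lt 15 19)))))]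

theorem sat_T0 : ∀ φ ∈ T0', ∀ v : ℕ → DM, Fm.Sat D φ v := by
  intro φ hφ v
  simp only [T0', List.mem_cons, List.not_mem_nil, or_false] at hφ
  rcases hφ with rfl | rfl | rfl | rfl | rfl | rfl | rfl | rfl | rfl | rfl
  · rw [D_ex]; exact ⟨.inl 0, rfl⟩
  · intro a
    rw [D_ex]
    exact ⟨Dsucc a, by simp [upd]⟩
  · intro a b h1 h2
    simp only [Fm.sat_succ, Fm.sat_zero, upd] at h1 h2
    simp at h1 h2
    exact Dsucc_ne a (h1.symm.trans h2)
  · intro a h
    simp only [Fm.sat_zero, upd] at h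
    simp at h
    unfold nat; rw [s0]; exact ⟨0, by simp [upd, h]⟩
  · intro a b h1 h2
    simp only [nat, s0, Fm.sat_succ, upd] at *
    simp at h1 h2 ⊢
    obtain ⟨p, rfl⟩ := h1
    exact ⟨p + 1, h2⟩
  · intro a b h1 h2
    simp only [lt, s1, Fm.sat_zero, upd] at *
    simp at h1 h2
    obtain ⟨p, hp, q, hq, hpq⟩ := h2
    rw [h1] at hq
    have := Sum.inl.inj hq
    omega
  · intro a b c h1 h2
    rw [Fm.sat_succ] at h1
    unfold lt at h2
    rw [s1] at h2
    intro h3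
    unfold lt at h3
    rw [Fm.sat_neg, s1] at h3 
    rw [Fm.sat_eq]
    simp [upd] at h1 h2 h3 ⊢
    obtain ⟨p, rfl, q, rfl, hpq⟩ := h2
    rcases a with a | a
    · have e := Sum.inl.inj h1
      have := h3 p rfl a rfl
      congr 1
      omega
    · cases h1
  · intro a b h1 h2
    unfold nat at h1 h2
    rw [s0] at h1 h2
    simp [upd] at h1 h2
    obtain ⟨p, rfl⟩ := h1
    obtain ⟨q, rfl⟩ := h2
    rw [D_ex]
    refine ⟨.inl (max p q), ?_⟩
    rw [Fm.sat_and]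
    constructor
    · unfold nat
      rw [s0]
      exact ⟨max p q, by simp [upd]⟩
    · intro c hc
      unfold lt at hc ⊢
      rw [s1] at hc
      rw [Fm.sat_and, s1, s1]
      simp [upd] at hc ⊢
      obtain ⟨r, rfl, h1, h2⟩ := hc
      exact ⟨⟨r, rfl, h1⟩, ⟨r, rfl, h2⟩⟩
  · intro a b h
    unfold ht at h
    rw [s2] at h
    unfold nat
    rw [s0]
    simp [upd] at h ⊢
    obtain ⟨h, -, h1⟩ := h
    exact ⟨h, h1⟩
  · intro a h
    unfold nat at h
    rw [s0] at h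
    simp [upd] at h
    obtain ⟨p, rfl⟩ := h
    rw [D_ex]
    refine ⟨.inr (0, p + 1), ?_⟩
    rw [D_ex]
    refine ⟨.inl (p + 1), ?_⟩
    unfold ht lt
    rw [Fm.sat_and, s2, s1]
    simp [upd]

lemma sat_appn {σ : List Bool} {ψ : Fml} (h0 : ¬ ψ.Free 0) (h1 : ¬ ψ.Free 1) (h21 : ¬ ψ.Free 21) (h23 : ¬ ψ.Free 23)
    (h25 : ¬ ψ.Free 25) {v : ℕ → DM} {w : List Bool} (hv : v 17 = .inl (num w)) :
    Fm.Sat D (appn σ ψ) v ↔ Fm.Sat D ψ (upd v 27 (.inl (num (w ++ σ)))) := by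
  have f0 : ∀ z, z = 0 ∨ z = 1 → ¬ (Fm.all 25 (.imp (.mul 21 17 25) (.all 27 (.imp (.add 25 23 27) ψ)))).Free z := by
    rintro z hz ⟨_, (h | h | h) | ⟨_, (h | h | h) | h⟩⟩ 
    · omega
    · omega
    · omega
    · omega
    · omega
    · omega
    · rcases hz with rfl | rfl
      · exact h0 h
      · exact h1 h
  unfold appn
  rw [sat_inst (by norm_num) (by norm_num) (fun h => f0 0 (Or.inl rfl) (free_inst h).2.2)
    (fun h => f0 1 (Or.inr rfl) (free_inst h).2.2), sat_inst (by norm_num) (by norm_num) (f0 0 (Or.inl rfl)) (f0 1 (Or.inr rfl))]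
  have key : ∀ a b c d : DM, Fm.Sat D ψ (upd (upd (upd (upd v 21 a) 23 b) 25 c) 27 d) ↔ Fm.Sat D ψ (upd v 27 d) := by
    intro a b c d
    rw [upd_comm _ _ _ (by norm_num : 25 ≠ 27), sat_upd h25, upd_comm _ _ _ (by norm_num : 23 ≠ 27), sat_upd h23,
      upd_comm _ _ _ (by norm_num : 21 ≠ 27), sat_upd h21]
  have e : Dadd (Dmul (.inl (2 ^ σ.length)) (v 17)) (.inl (num σ)) = .inl (num (w ++ σ)) := by
    rw [hv, num_app]; rfl
  constructor
  · intro H
    have H1 := H (Dmul (.inl (2 ^ σ.length)) (v 17)) (by simp [upd]) (.inl (num (w ++ σ))) (by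
      rw [← e]; simp [upd])
    exact (key _ _ _ _).mp H1
  · intro H a ha b hb
    rw [Fm.sat_mul] at ha
    rw [Fm.sat_add] at hb
    simp [upd] at ha hb
    rw [ha, e] at hb
    rw [hb]
    exact (key _ _ _ _).mpr H

theorem sat_TE : ∀ φ ∈ TE, ∀ v : ℕ → DM, Fm.Sat D φ v := by
  intro φ hφ v
  simp only [TE, List.mem_cons, List.not_mem_nil, or_false] at hφ
  rcases hφ with rfl | rfl | rfl | rfl | rfl
  · intro a h
    rw [Fm.sat_zero] at h
    simp [upd] at h
    subst h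
    rw [sat_inst (by norm_num) (by norm_num) (by simp [Ef, Fm.Free]) (by simp [Ef, Fm.Free])]
    unfold Ef
    rw [s4]
    exact ⟨0, num hd, by simp [upd], by simp [upd], by simp [Erel]⟩
  · intro a b h1 c h2
    unfold Ef at h1
    rw [s4] at h1
    rw [Fm.sat_succ] at h2
    simp [upd] at h1 h2
    obtain ⟨p, rfl, q, rfl, hpq⟩ := h1
    rw [sat_appn (w := hd ++ (List.replicate p bs).flatten) (by simp [Ef, Fm.Free]) (by simp [Ef, Fm.Free])
      (by simp [Ef, Fm.Free]) (by simp [Ef, Fm.Free]) (by simp [Ef, Fm.Free]) (by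
        simp [upd]; exact hpq)]
    unfold Ef
    rw [s4]
    refine ⟨p + 1, num (hd ++ (List.replicate p bs).flatten ++ bs), ?_, by rw [upd_same], ?_⟩
    · rw [h2]; simp [upd, Dsucc]
    · unfold Erel
      rw [List.replicate_succ', List.flatten_append]
      simp
  · intro a b h1 c h2
    unfold Ef at h1
    rw [s4] at h1
    rw [Fm.sat_zero] at h2
    simp [upd] at h1 h2
    obtain ⟨p, rfl, q, rfl, hpq⟩ := h1
    rw [sat_appn (w := hd ++ (List.replicate p bs).flatten) (by simp [Cf, Fm.Free]) (by simp [Cf, Fm.Free])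
      (by simp [Cf, Fm.Free]) (by simp [Cf, Fm.Free]) (by simp [Cf, Fm.Free]) (by
        simp [upd]; exact hpq)]
    unfold Cf
    rw [s5]
    refine ⟨p, 0, num (hd ++ (List.replicate p bs).flatten ++ tl), by simp [upd], by simpa [upd] using h2,
      by rw [upd_same], ?_⟩
    unfold Crel
    rw [digits_zero]
    simp
  · intro a b c h1 d h2 e h3 f h4 g h5
    unfold Cf at h1
    rw [s5] at h1
    rw [Fm.sat_add] at h2 h4
    rw [Fm.sat_succ] at h3 h5
    simp [upd] at h1 h2 h3 h4 h5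
    obtain ⟨p, rfl, q, rfl, r, rfl, hpq⟩ := h1
    unfold Cf
    rw [s5]
    refine ⟨p, 2 * q + 1, 2 * r + 1, by simp [upd], ?_, ?_, ?_⟩
    · simp [upd]
      rw [h3, h2]
      simp [Dadd, Dsucc]
      omega
    · simp [upd]
      rw [h5, h4]
      simp [Dadd, Dsucc]
      omega
    · unfold Crel at hpq ⊢
      rw [digits_odd, ← List.append_assoc, num_snoc, ← hpq]
      simp
  · intro a b c h1 d h2 e h3 e' h3' f h4 g h5 g' h5'
    unfold Cf at h1
    rw [s5] at h1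
    rw [Fm.sat_add] at h2 h4
    rw [Fm.sat_succ] at h3 h5 h3' h5'
    simp [upd] at h1 h2 h3 h4 h5 h3' h5'
    obtain ⟨p, rfl, q, rfl, r, rfl, hpq⟩ := h1
    unfold Cf
    rw [s5]
    refine ⟨p, 2 * q + 2, 2 * r + 2, by simp [upd], ?_, ?_, ?_⟩
    · simp [upd]
      rw [h3', h3, h2]
      simp [Dadd, Dsucc]
      omega
    · simp [upd]
      rw [h5', h5, h4]
      simp [Dadd, Dsucc]
      omega
    · unfold Crel at hpq ⊢
      rw [digits_even, ← List.append_assoc, num_snoc, ← hpq]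
      simp

end Pool.Agent.TH197.J1545
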