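import Pool.Agent.TH197.J1545c

set_option autoImplicit false

/-!
Job 1545 (BC-2, helper636): realization of the valid states in the real structure.
-/

namespace Pool.Agent.TH197.J1545

open Pool.Agent.TH636.BC
open Pool.Agent.TH672 (Fm Str upd varStr num digits LogK ReplK Sw upd_same upd_ne upd_upd upd_comm upd_self)

/-- the value of an element, without its identity -/
def hgt : DM → ℕ ⊕ ℕ
  | .inl a => .inl a
  | .inr p => .inr p.2

lemma hgt_inl {d : DM} {a : ℕ} : hgt d = .inl a ↔ d = .inl a := by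
  rcases d with d | d <;> simp [hgt]

lemma hgt_right {d : DM} : (hgt d).isRight ↔ ∃ p, d = .inr p := by
  rcases d with d | d <;> simp [hgt]

/-- the assignment realizes the state -/
structure Real (m : ℕ) (s : St) (ρ : ℕ → DM) : Prop where
  v : ∀ i < m, s.v i = hgt (ρ i)
  c : ∀ i < m, ∀ j < m, (s.v i).isRight → (s.v j).isRight → (s.c i j = 0 ↔ ρ i = ρ j)

lemma eqs_iff {m : ℕ} {s : St} {ρ : ℕ → DM} (h : Ok m s) (r : Real m s ρ) {x y : ℕ} (hx : x < m) (hy : y < m) :
    Eqs s x y ↔ ρ x = ρ y := by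
  constructor
  · rintro ⟨hv, hc⟩
    rcases hρ : ρ x with a | p
    · have e1 : s.v x = .inl a := by rw [r.v x hx, hρ]; rfl
      have e2 : hgt (ρ y) = .inl a := by rw [← r.v y hy, ← hv, e1]
      exact (hgt_inl.mp e2).symm
    · have e1 : s.v x = .inr p.2 := by rw [r.v x hx, hρ]; rfl
      rw [← hρ]
      exact (r.c x hx y hy (by rw [e1]; rfl) (by rw [← hv, e1]; rfl)).mp hc
  · intro e
    have e1 : s.v x = s.v y := by rw [r.v x hx, r.v y hy, e]
    refine ⟨e1, ?_⟩
    rcases hx' : s.v x with a | p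
    · exact h.norm x hx y hy (Or.inl (by rw [hx']; rfl))
    · exact (r.c x hx y hy (by rw [hx']; rfl) (by rw [← e1, hx']; rfl)).mpr e

/-- the state where `x` has the value `w` and the colours `γ` with the other variables -/
def md (s : St) (x : ℕ) (w : ℕ ⊕ ℕ) (γ : ℕ → ℕ) : St where
  v i := if i = x then w else s.v i
  c i j := if i = x then (if j = x then 0 else γ j) else if j = x then γ i else s.c i j

section mdl

variable {s : St} {x : ℕ} {w : ℕ ⊕ ℕ} {γ : ℕ → ℕ}

lemma md_vx : (md s x w γ).v x = w := by simp [md]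
lemma md_v {i : ℕ} (h : i ≠ x) : (md s x w γ).v i = s.v i := by simp [md, h]
lemma md_xx : (md s x w γ).c x x = 0 := by simp [md]
lemma md_xc {j : ℕ} (h : j ≠ x) : (md s x w γ).c x j = γ j := by simp [md, h]
lemma md_cx {j : ℕ} (h : j ≠ x) : (md s x w γ).c j x = γ j := by simp [md, h]
lemma md_c {i j : ℕ} (h : i ≠ x) (h' : j ≠ x) : (md s x w γ).c i j = s.c i j := by simp [md, h, h']

end mdl

lemma md_agr {m : ℕ} (s : St) (x : ℕ) (w : ℕ ⊕ ℕ) (γ : ℕ → ℕ) : Agr m x (md s x w γ) s :=
  ⟨fun _ _ h => md_v h, fun _ _ _ _ h h' => md_c h h'⟩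

theorem md_ok {m : ℕ} {s : St} (h : Ok m s) {x : ℕ} {w : ℕ ⊕ ℕ} {γ : ℕ → ℕ}
    (g0 : ∀ j < m, j ≠ x → w.isLeft ∨ (s.v j).isLeft → γ j = 0)
    (gle : ∀ j < m, j ≠ x → γ j ≤ m)
    (gval : ∀ j < m, j ≠ x → w.isRight → (s.v j).isRight → γ j = 0 → w = s.v j)
    (gc1 : ∀ i < m, i ≠ x → ∀ j < m, j ≠ x → (s.v i).isRight → (s.v j).isRight → s.c i j = 0 → γ i = γ j)
    (gc2 : ∀ j < m, j ≠ x → ∀ k < m, k ≠ x → w.isRight → (s.v j).isRight → γ j = 0 → γ k = s.c j k)
    (gtri : ∀ i < m, i ≠ x → ∀ j < m, j ≠ x → γ i = γ j → s.c i j = γ i → γ i = 0) :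
    Ok m (md s x w γ) where
  norm := by
    intro i hi j hj hij
    by_cases hix : i = x
    · subst hix
      by_cases hjx : j = i
      · subst hjx; exact md_xx
      · rw [md_xc hjx]
        rw [md_vx, md_v hjx] at hij
        exact g0 j hj hjx hij
    · by_cases hjx : j = x
      · subst hjx
        rw [md_cx hix]
        rw [md_vx, md_v hix] at hij
        exact g0 i hi hix hij.symm
      · rw [md_c hix hjx]
        rw [md_v hix, md_v hjx] at hij
        exact h.norm i hi j hj hij
  refl := by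
    intro i hi
    by_cases hix : i = x
    · subst hix; exact md_xx
    · rw [md_c hix hix]; exact h.refl i hi
  symm := by
    intro i hi j hj
    by_cases hix : i = x
    · subst hix
      by_cases hjx : j = i
      · subst hjx; rfl
      · rw [md_xc hjx, md_cx hjx]
    · by_cases hjx : j = x
      · subst hjx
        rw [md_xc hix, md_cx hix]
      · rw [md_c hix hjx, md_c hjx hix]
        exact h.symm i hi j hj
  le := by
    intro i hi j hj
    by_cases hix : i = x
    · subst hix
      by_cases hjx : j = i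
      · subst hjx; rw [md_xx]; exact Nat.zero_le _
      · rw [md_xc hjx]; exact gle j hj hjx
    · by_cases hjx : j = x
      · subst hjx
        rw [md_cx hix]; exact gle i hi hix
      · rw [md_c hix hjx]
        exact h.le i hi j hj
  val := by
    intro i hi j hj h1 h2 h3
    by_cases hix : i = x
    · subst hix
      by_cases hjx : j = i
      · subst hjx; rfl
      · rw [md_xc hjx] at h3
        rw [md_vx] at h1 ⊢
        rw [md_v hjx] at h2 ⊢
        exact gval j hj hjx h1 h2 h3
    · by_cases hjx : j = x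
      · subst hjx
        rw [md_cx hix] at h3
        rw [md_vx] at h2 ⊢
        rw [md_v hix] at h1 ⊢
        exact (gval i hi hix h2 h1 h3).symm
      · rw [md_c hix hjx] at h3
        rw [md_v hix] at h1 ⊢
        rw [md_v hjx] at h2 ⊢
        exact h.val i hi j hj h1 h2 h3
  cong := by
    intro i hi j hj k hk h1 h2 h3
    by_cases hix : i = x
    · subst hix
      by_cases hjx : j = i
      · subst hjx; rfl
      · rw [md_xc hjx] at h3
        rw [md_vx] at h1
        rw [md_v hjx] at h2
        by_cases hkx : k = i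
        · subst hkx
          rw [md_xx, md_cx hjx, h3]
        · rw [md_xc hkx, md_c hjx hkx]
          exact gc2 j hj hjx k hk hkx h1 h2 h3
    · by_cases hjx : j = x
      · subst hjx
        rw [md_cx hix] at h3
        rw [md_vx] at h2
        rw [md_v hix] at h1
        by_cases hkx : k = j
        · subst hkx
          rw [md_xx, md_cx hix, h3]
        · rw [md_xc hkx, md_c hix hkx]
          exact (gc2 i hi hix k hk hkx h2 h1 h3).symm
      · rw [md_c hix hjx] at h3
        rw [md_v hix] at h1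
        rw [md_v hjx] at h2
        by_cases hkx : k = x
        · subst hkx
          rw [md_cx hix, md_cx hjx]
          exact gc1 i hi hix j hj hjx h1 h2 h3
        · rw [md_c hix hkx, md_c hjx hkx]
          exact h.cong i hi j hj k hk h1 h2 h3
  tri := by
    intro i hi j hj k hk h1 h2
    by_cases hix : i = x
    · subst hix
      by_cases hjx : j = i
      · subst hjx; exact md_xx
      · rw [md_xc hjx] at h1 ⊢
        by_cases hkx : k = i
        · subst hkx
          rw [md_cx hjx, md_xx] at h2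
          exact h2
        · rw [md_c hjx hkx] at h1 h2
          rw [md_xc hkx] at h2
          exact gtri j hj hjx k hk hkx (h1.trans h2) h1.symm
    · by_cases hjx : j = x
      · subst hjx
        rw [md_cx hix] at h1 ⊢
        by_cases hkx : k = j
        · subst hkx
          rw [md_xx] at h1
          exact h1
        · rw [md_xc hkx] at h1 h2
          rw [md_c hix hkx] at h2
          exact gtri i hi hix k hk hkx h1 (h2.symm.trans h1.symm)
      · rw [md_c hix hjx] at h1 ⊢
        by_cases hkx : k = x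
        · subst hkx
          rw [md_cx hjx] at h1 h2
          rw [md_cx hix] at h2
          have := gtri i hi hix j hj hjx h2.symm (h1.trans h2)
          rw [h1, h2, this]
        · rw [md_c hjx hkx] at h1 h2
          rw [md_c hix hkx] at h2
          exact h.tri i hi j hj k hk h1 h2

theorem md_real {m : ℕ} {s : St} {ρ : ℕ → DM} (r : Real m s ρ) {x : ℕ} {w : ℕ ⊕ ℕ} {γ : ℕ → ℕ} {d : DM}
    (hd : w = hgt d) (hγ : ∀ j < m, j ≠ x → w.isRight → (s.v j).isRight → (γ j = 0 ↔ d = ρ j)) :
    Real m (md s x w γ) (upd ρ x d) where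
  v := by
    intro i hi
    by_cases hix : i = x
    · subst hix; rw [md_vx, upd_same, hd]
    · rw [md_v hix, upd_ne _ _ hix, r.v i hi]
  c := by
    intro i hi j hj h1 h2
    by_cases hix : i = x
    · subst hix
      by_cases hjx : j = i
      · subst hjx; rw [md_xx]; simp
      · rw [md_xc hjx, upd_same, upd_ne _ _ hjx]
        rw [md_vx] at h1
        rw [md_v hjx] at h2
        exact hγ j hj hjx h1 h2
    · by_cases hjx : j = x
      · subst hjx
        rw [md_cx hix, upd_same, upd_ne _ _ hix, hγ i hi hix (by rwa [md_vx] at h2) (by rwa [md_v hix] at h1)]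
        exact eq_comm
      · rw [md_c hix hjx, upd_ne _ _ hix, upd_ne _ _ hjx]
        rw [md_v hix] at h1
        rw [md_v hjx] at h2
        exact r.c i hi j hj h1 h2

/-! ### the three modifications -/

theorem set_ok {m : ℕ} {s : St} (h : Ok m s) (x n : ℕ) : Ok m (md s x (.inl n) fun _ => 0) := by
  refine md_ok h (fun _ _ _ _ => rfl) (fun _ _ _ => Nat.zero_le _) (fun _ _ _ h => absurd h (by simp))
    (fun _ _ _ _ _ _ _ _ _ => rfl) (fun _ _ _ _ _ _ h => absurd h (by simp)) (fun _ _ _ _ _ _ _ _ => rfl)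

theorem set_real {m : ℕ} {s : St} {ρ : ℕ → DM} (r : Real m s ρ) (x n : ℕ) :
    Real m (md s x (.inl n) fun _ => 0) (upd ρ x (.inl n)) :=
  md_real r rfl fun _ _ _ h => absurd h (by simp)

theorem copy_ok {m : ℕ} {s : St} (h : Ok m s) {x k : ℕ} (hk : k < m) (hn : (s.v k).isRight) :
    Ok m (md s x (s.v k) fun j => s.c k j) := by
  refine md_ok h (fun j hj _ h' => h.norm k hk j hj h') (fun j hj _ => h.le k hk j hj)
    (fun j hj _ h1 h2 h3 => h.val k hk j hj h1 h2 h3) ?_ ?_ ?_
  · intro i hi _ j hj _ h1 h2 h3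
    have := h.cong i hi j hj k hk h1 h2 h3
    rw [h.symm k hk i hi, h.symm k hk j hj, this]
  · intro j hj _ l hl _ h1 h2 h3
    exact h.cong k hk j hj l hl h1 h2 h3
  · intro i hi _ j hj _ h1 h2
    exact h.tri k hk i hi j hj h2.symm (h2.trans h1)

theorem copy_real {m : ℕ} {s : St} {ρ : ℕ → DM} (r : Real m s ρ) {x k : ℕ} (hk : k < m) (hn : (s.v k).isRight) :
    Real m (md s x (s.v k) fun j => s.c k j) (upd ρ x (ρ k)) :=
  md_real r (r.v k hk) fun j hj _ _ h2 => r.c k hk j hj hn h2

/-- the smallest index of a variable `≠ x` with the same value as `j` -/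
noncomputable def rep (m : ℕ) (s : St) (x j : ℕ) : ℕ := sInf {l | l < m ∧ l ≠ x ∧ (s.v l).isRight ∧ s.c j l = 0}

lemma rep_mem {m : ℕ} {s : St} (h : Ok m s) {x j : ℕ} (hj : j < m) (hjx : j ≠ x) (hn : (s.v j).isRight) :
    rep m s x j < m ∧ rep m s x j ≠ x ∧ (s.v (rep m s x j)).isRight ∧ s.c j (rep m s x j) = 0 := by
  have := Nat.sInf_mem (s := {l | l < m ∧ l ≠ x ∧ (s.v l).isRight ∧ s.c j l = 0}) ⟨j, hj, hjx, hn, h.refl j hj⟩
  exact this

lemma rep_eq {m : ℕ} {s : St} (h : Ok m s) {x i j : ℕ} (hi : i < m) (hj : j < m) (h1 : (s.v i).isRight)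
    (h2 : (s.v j).isRight) (h3 : s.c i j = 0) : rep m s x i = rep m s x j := by
  unfold rep
  congr 1
  ext l
  constructor
  · rintro ⟨hl, hlx, hln, hl0⟩
    exact ⟨hl, hlx, hln, by rw [← h.cong i hi j hj l hl h1 h2 h3]; exact hl0⟩
  · rintro ⟨hl, hlx, hln, hl0⟩
    exact ⟨hl, hlx, hln, by rw [h.cong i hi j hj l hl h1 h2 h3]; exact hl0⟩

lemma rep_inj {m : ℕ} {s : St} (h : Ok m s) {x i j : ℕ} (hi : i < m) (hj : j < m) (hix : i ≠ x) (hjx : j ≠ x)
    (h1 : (s.v i).isRight) (h2 : (s.v j).isRight) (h3 : rep m s x i = rep m s x j) : s.c i j = 0 := by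
  obtain ⟨a1, a2, a3, a4⟩ := rep_mem h hi hix h1
  obtain ⟨b1, b2, b3, b4⟩ := rep_mem h hj hjx h2
  rw [← h3] at b1 b2 b3 b4
  rw [h.cong i hi _ a1 j hj h1 a3 a4, h.symm _ a1 j hj, b4]

/-- the colours of a new node -/
noncomputable def nw (m : ℕ) (s : St) (x j : ℕ) : ℕ := if (s.v j).isRight then 1 + rep m s x j else 0

theorem new_ok {m : ℕ} {s : St} (h : Ok m s) (x k : ℕ) : Ok m (md s x (.inr k) (nw m s x)) := by
  have hne : ∀ j, (s.v j).isRight → nw m s x j ≠ 0 := by
    intro j hj
    simp [nw, hj]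
  refine md_ok h ?_ ?_ ?_ ?_ ?_ ?_
  · intro j hj _ h'
    rcases h' with h' | h'
    · exact absurd h' (by simp)
    · unfold nw
      rw [if_neg]
      rcases hv : s.v j with a | a
      · simp
      · rw [hv] at h'; exact absurd h' (by simp)
  · intro j hj hjx
    unfold nw
    split_ifs with hn
    · have := (rep_mem h hj hjx hn).1
      omega
    · exact Nat.zero_le _
  · intro j _ _ _ h2 h3
    exact absurd h3 (hne j h2)
  · intro i hi _ j hj _ h1 h2 h3
    unfold nw
    rw [if_pos h1, if_pos h2, rep_eq h hi hj h1 h2 h3]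
  · intro j _ _ l _ _ _ h2 h3
    exact absurd h3 (hne j h2)
  · intro i hi hix j hj hjx h1 h2
    by_contra h3
    have hi' : (s.v i).isRight := by
      by_contra h4
      exact h3 (by simp [nw, h4])
    have hj' : (s.v j).isRight := by
      by_contra h4
      rw [h1] at h3
      exact h3 (by simp [nw, h4])
    have h4 : rep m s x i = rep m s x j := by
      unfold nw at h1
      rw [if_pos hi', if_pos hj'] at h1
      omega
    have h5 := rep_inj h hi hj hix hjx hi' hj' h4
    exact h3 (h2.symm.trans h5)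

theorem new_real {m : ℕ} {s : St} {ρ : ℕ → DM} (r : Real m s ρ) (x : ℕ) {p : ℕ × ℕ}
    (hp : ∀ j < m, j ≠ x → ρ j ≠ .inr p) :
    Real m (md s x (.inr p.2) (nw m s x)) (upd ρ x (.inr p)) :=
  md_real r rfl fun j hj hjx _ h2 => ⟨fun h => absurd h (by simp [nw, h2]), fun h => absurd h.symm (hp j hj hjx)⟩

/-! ### extension in both directions -/

theorem ext_fwd {m : ℕ} {s : St} {ρ : ℕ → DM} (h : Ok m s) (r : Real m s ρ) (x : ℕ) (d : DM) :
    ∃ t, Ok m t ∧ Agr m x t s ∧ Real m t (upd ρ x d) := by
  rcases d with n | p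
  · exact ⟨_, set_ok h x n, md_agr _ _ _ _, set_real r x n⟩
  · by_cases hp : ∃ k < m, ρ k = .inr p
    · obtain ⟨k, hk, hρ⟩ := hp
      have hn : (s.v k).isRight := by rw [r.v k hk, hρ]; rfl
      refine ⟨_, copy_ok h (x := x) hk hn, md_agr _ _ _ _, ?_⟩
      rw [← hρ]
      exact copy_real r hk hn
    · refine ⟨_, new_ok h x p.2, md_agr _ _ _ _, new_real r x fun j hj _ e => hp ⟨j, hj, e⟩⟩

theorem fresh (m : ℕ) (ρ : ℕ → DM) : ∃ n, ∀ k < m, ∀ l, ρ k ≠ .inr (n, l) := by
  induction m with
  | zero => exact ⟨0, fun k hk => absurd hk (Nat.not_lt_zero _)⟩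
  | succ m ih =>
    clear ih
    -- all large numbers are fresh
    have : ∀ m : ℕ, ∃ N, ∀ n ≥ N, ∀ k < m, ∀ l, ρ k ≠ .inr (n, l) := by
      intro m
      induction m with
      | zero => exact ⟨0, fun n _ k hk => absurd hk (Nat.not_lt_zero _)⟩
      | succ m ih =>
        obtain ⟨N, hN⟩ := ih
        rcases hρ : ρ m with a | p
        · refine ⟨N, fun n hn k hk l => ?_⟩
          rcases Nat.lt_succ_iff_lt_or_eq.mp hk with hk | rfl
          · exact hN n hn k hk l
          · rw [hρ]; simp
        · refine ⟨max N (p.1 + 1), fun n hn k hk l => ?_⟩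
          rcases Nat.lt_succ_iff_lt_or_eq.mp hk with hk | rfl
          · exact hN n (le_trans (le_max_left _ _) hn) k hk l
          · rw [hρ]
            intro e
            have e1 := Sum.inr.inj e
            have e2 : p.1 + 1 ≤ n := le_trans (le_max_right _ _) hn
            rw [e1] at e2
            simp at e2
    obtain ⟨N, hN⟩ := this (m + 1)
    exact ⟨N, hN N le_rfl⟩

theorem ext_bwd {m : ℕ} {s t : St} {ρ : ℕ → DM} (r : Real m s ρ) {x : ℕ} (ht : Ok m t)
    (ha : Agr m x t s) : ∃ d, Real m t (upd ρ x d) := by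
  -- a general criterion
  have key : ∀ d : DM, (x < m → t.v x = hgt d) →
      (x < m → ∀ j < m, j ≠ x → (t.v x).isRight → (t.v j).isRight → (t.c x j = 0 ↔ d = ρ j)) →
      Real m t (upd ρ x d) := by
    intro d h1 h2
    constructor
    · intro i hi
      by_cases hix : i = x
      · subst hix; rw [upd_same, h1 hi]
      · rw [upd_ne _ _ hix, ha.1 i hi hix, r.v i hi]
    · intro i hi j hj h3 h4
      by_cases hix : i = x
      · subst hix
        by_cases hjx : j = i
        · subst hjx; rw [ht.refl j hj]; simp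
        · rw [upd_same, upd_ne _ _ hjx]
          exact h2 hi j hj hjx h3 h4
      · by_cases hjx : j = x
        · subst hjx
          rw [upd_same, upd_ne _ _ hix, ht.symm i hi j hj, h2 hj i hi hix h4 h3]
          exact eq_comm
        · rw [upd_ne _ _ hix, upd_ne _ _ hjx, ha.2 i hi j hj hix hjx]
          rw [ha.1 i hi hix] at h3
          rw [ha.1 j hj hjx] at h4
          exact r.c i hi j hj h3 h4
  rcases hv : t.v x with n | l
  · refine ⟨.inl n, key _ (fun _ => hv) ?_⟩
    intro _ j _ _ h1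
    rw [hv] at h1
    exact absurd h1 (by simp)
  · by_cases hk : x < m ∧ ∃ k < m, k ≠ x ∧ (t.v k).isRight ∧ t.c x k = 0
    · obtain ⟨hx, k, hk, hkx, hkn, hk0⟩ := hk
      have hxn : (t.v x).isRight := by rw [hv]; rfl
      refine ⟨ρ k, key _ (fun _ => ?_) ?_⟩
      · rw [ht.val x hx k hk hxn hkn hk0, ha.1 k hk hkx, r.v k hk]
      · intro _ j hj hjx _ hjn
        rw [ht.cong x hx k hk j hj hxn hkn hk0, ha.2 k hk j hj hkx hjx]
        rw [ha.1 k hk hkx] at hkn
        rw [ha.1 j hj hjx] at hjn
        exact r.c k hk j hj hkn hjn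
    · obtain ⟨n, hn⟩ := fresh m ρ
      refine ⟨.inr (n, l), key _ (fun _ => hv) ?_⟩
      intro hx j hj hjx _ hjn
      constructor
      · intro h0
        exact absurd ⟨hx, j, hj, hjx, hjn, h0⟩ hk
      · intro e
        exact absurd e.symm (hn j hj l)

/-- every valid state is realized -/
theorem realize {m : ℕ} {s : St} (h : Ok m s) : ∃ ρ, Real m s ρ := by
  refine ⟨fun i => match s.v i with
    | .inl a => .inl a
    | .inr l => .inr (rep m s m i, l), ?_, ?_⟩
  · intro i _
    show s.v i = hgt (match s.v i with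
      | .inl a => .inl a
      | .inr l => .inr (rep m s m i, l))
    rcases s.v i with a | l <;> rfl
  · intro i hi j hj h1 h2
    show s.c i j = 0 ↔ (match s.v i with
      | .inl a => (.inl a : DM)
      | .inr l => .inr (rep m s m i, l)) = (match s.v j with
      | .inl a => (.inl a : DM)
      | .inr l => .inr (rep m s m j, l))
    constructor
    · intro h0
      rw [h.val i hi j hj h1 h2 h0, rep_eq h hi hj h1 h2 h0]
    · intro e
      apply rep_inj h hi hj (x := m) (ne_of_lt hi) (ne_of_lt hj) h1 h2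
      rcases hvi : s.v i with a | l
      · rw [hvi] at h1; exact absurd h1 (by simp)
      · rcases hvj : s.v j with a' | l'
        · rw [hvj] at h2; exact absurd h2 (by simp)
        · rw [hvi, hvj] at e
          exact (Prod.mk.inj (Sum.inr.inj e)).1

end Pool.Agent.TH197.J1545
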