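import Pool.Agent.TH806.Tor1

set_option autoImplicit false

/-!
N4 project (helper806), part TW1: one prime.
-/

namespace Pool.Agent.TH197.N4_TW1

open Finset Filter MeasureTheory Complex
open Pool.Agent.TH806

/-- Fourier coefficients of the square of the conjugate of the geometric series -/
lemma int_sq {a : ℂ} (ha : ‖a‖ < 1) (k : ℤ) :
    ∫ x, ec (k * x) * ((starRingEnd ℂ) ((1 - a * ec x)⁻¹)) ^ 2 ∂uu =
      if 0 ≤ k then ((k.natAbs : ℂ) + 1) * (starRingEnd ℂ) a ^ k.natAbs else 0 := by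
  set b := (starRingEnd ℂ) a with hb
  have hbn : ‖b‖ < 1 := by rw [hb, Complex.norm_conj]; exact ha
  have h1 : ∀ x : ℝ, ec (k * x) * ((starRingEnd ℂ) ((1 - a * ec x)⁻¹)) ^ 2 =
      ∑' n : ℕ, (((n : ℂ) + 1) * b ^ n) * ec ((k - n : ℤ) * x) := by
    intro x
    have hq : ‖b * ec (-x)‖ < 1 := by rw [norm_mul, ec_norm, mul_one]; exact hbn
    have e1 : (starRingEnd ℂ) ((1 - a * ec x)⁻¹) = (1 - b * ec (-x))⁻¹ := by
      rw [map_inv₀, map_sub, map_one, map_mul, ec_conj]
    have e2 := hasSum_choose_mul_geometric_of_norm_lt_one 1 hq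
    have e3 : (1 - b * ec (-x))⁻¹ ^ 2 = 1 / (1 - b * ec (-x)) ^ (1 + 1) := by
      rw [one_div, inv_pow]
    rw [e1, e3, ← e2.tsum_eq, ← tsum_mul_left]
    refine tsum_congr fun n => ?_
    have e4 : ((k - n : ℤ) : ℝ) * x = k * x + n * (-x) := by push_cast; ring
    rw [e4, ec_add, ec_nat, mul_pow, Nat.choose_one_right]
    push_cast
    ring
  simp_rw [h1]
  have hs := hasSum_integral_of_summable_integral_norm (μ := uu)
    (F := fun (n : ℕ) (x : ℝ) => (((n : ℂ) + 1) * b ^ n) * ec ((k - n : ℤ) * x))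
    (fun n => integrable_uu (B := ((n:ℝ) + 1) * ‖b‖ ^ n) (by
      have := ec_cont; fun_prop) (fun x => by
        rw [norm_mul, norm_mul, ec_norm, mul_one, norm_pow]
        have : ‖(n : ℂ) + 1‖ = (n:ℝ) + 1 := by
          have h : ((n : ℂ) + 1) = ((n + 1 : ℕ) : ℂ) := by push_cast; ring
          rw [h, Complex.norm_natCast]; push_cast; ring
        rw [this]))
    (by
      have : ∀ n : ℕ, ∫ x, ‖(((n : ℂ) + 1) * b ^ n) * ec ((k - n : ℤ) * x)‖ ∂uu = ((n:ℝ) + 1) * ‖b‖ ^ n := by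
        intro n
        have h2 : ‖(n : ℂ) + 1‖ = (n:ℝ) + 1 := by
          have h : ((n : ℂ) + 1) = ((n + 1 : ℕ) : ℂ) := by push_cast; ring
          rw [h, Complex.norm_natCast]; push_cast; ring
        simp_rw [norm_mul, ec_norm, mul_one, norm_pow, h2]
        simp
      simp_rw [this]
      have h3 := (summable_choose_mul_geometric_of_norm_lt_one (R := ℝ) 1 (r := ‖b‖) (by rwa [norm_norm]))
      refine h3.congr fun n => ?_
      rw [Nat.choose_one_right]; push_cast; ring)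
  rw [← hs.tsum_eq]
  have h2 : ∀ n : ℕ, ∫ x, (((n : ℂ) + 1) * b ^ n) * ec ((k - n : ℤ) * x) ∂uu =
      if (k - n : ℤ) = 0 then ((n : ℂ) + 1) * b ^ n else 0 := by
    intro n
    rw [integral_const_mul, int_ec]
    split_ifs <;> simp
  simp_rw [h2]
  split_ifs with hk
  · rw [tsum_eq_single k.natAbs]
    · rw [if_pos]; omega
    · intro n hn
      rw [if_neg]; omega
  · have : ∀ n : ℕ, (if (k - n : ℤ) = 0 then ((n : ℂ) + 1) * b ^ n else 0) = 0 := by
      intro n
      rw [if_neg]; omega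
    simp [this]

end Pool.Agent.TH197.N4_TW1
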