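import Pool.Agent.TH806.Tor8
import Pool.Agent.TH197.N4_TW1a

set_option autoImplicit false

/-!
N4 project (helper806), part TW1: the torus side of the first moment.
-/

namespace Pool.Agent.TH197.N4_TW1

open Finset Filter MeasureTheory Complex
open Pool.Agent.W184.NZ Pool.Agent.TH806

noncomputable section

variable {N : ℕ}

/-- the main term of one monomial -/
def W1 (h l : ℕ) : ℂ := if l ∣ h then (((h / l).divisors.card : ℝ) / (h : ℝ) : ℂ) else 0

lemma ub_half_norm (p : Ix N) : ‖ub N (1 / 2) p‖ < 1 := by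
  rw [ub_norm]
  refine Real.rpow_lt_one_of_one_lt_of_neg
        (by exact_mod_cast (Nat.mem_primesBelow.mp p.2).2.one_lt) ?_
  norm_num

lemma ub_half_conj (p : Ix N) : (starRingEnd ℂ) (ub N (1 / 2) p) = ub N (1 / 2) p := by
  unfold ub
  have h : (p.1 : ℕ) ≠ 0 := (Nat.mem_primesBelow.mp p.2).2.ne_zero
  rw [natCast_half h, Complex.conj_ofReal]

lemma prod_card {m : ℕ} (hm : m ≠ 0) (hmN : m < N) :
    ∏ p : Ix N, (((m.factorization p.1 : ℕ) : ℂ) + 1) = (m.divisors.card : ℂ) := by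
  rw [Nat.card_divisors hm]
  rw [Finset.prod_coe_sort (Nat.primesBelow N) (fun p : ℕ => ((m.factorization p : ℕ) : ℂ) + 1)]
  push_cast
  symm
  refine prod_subset ?_ ?_
  · intro p hp
    have hp' := Nat.mem_primeFactors.mp hp
    exact Nat.mem_primesBelow.mpr ⟨lt_of_le_of_lt (Nat.le_of_dvd (Nat.pos_of_ne_zero hm) hp'.2.1) hmN, hp'.1⟩
  · intro p _ hp
    rw [← Nat.support_factorization, Finsupp.notMem_support_iff] at hp
    rw [hp]; simp

lemma prod_half {m : ℕ} (hm : m ≠ 0) (hmN : m < N) :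
    ∏ p : Ix N, (ub N (1 / 2) p) ^ (m.factorization p.1) = (m : ℂ) ^ (-(1 / 2) : ℂ) := by
  have h0 : 1 < N ∨ m = 1 := by omega
  have h1 : (∏ p : Ix N, (p.1 : ℝ) ^ (m.factorization p.1)) = (m : ℝ) := by
    have h1 : m = ∏ p ∈ Nat.primesBelow N, p ^ (m.factorization p) := by
      conv_lhs => rw [← Nat.prod_factorization_pow_eq_self hm]
      rw [Finsupp.prod]
      refine prod_subset ?_ ?_
      · intro p hp
        have hp' := Nat.mem_primeFactors.mp (by simpa using hp)
        exact Nat.mem_primesBelow.mpr ⟨lt_of_le_of_lt (Nat.le_of_dvd (Nat.pos_of_ne_zero hm) hp'.2.1) hmN, hp'.1⟩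
      · intro p _ hp
        rw [Finsupp.notMem_support_iff] at hp
        rw [hp, pow_zero]
    have h2 : (m:ℝ) = ∏ p ∈ Nat.primesBelow N, (p : ℝ) ^ (m.factorization p) := by
      conv_lhs => rw [h1]
      push_cast; rfl
    rw [h2, ← Finset.prod_coe_sort (Nat.primesBelow N) (fun p => (p : ℝ) ^ (m.factorization p))]
  have h2 := prod_cpow (N := N) (-(1 / 2)) (fun p => m.factorization p.1)
  rw [h1] at h2
  unfold ub
  rw [h2, natCast_half hm, Complex.ofReal_exp]
  congr 1; push_cast; ring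

/-- the mean of a monomial over the torus -/
theorem int_mono {h l : ℕ} (hh : h ≠ 0) (hl : l ≠ 0) (hN : h < N) (lN : l < N) :
    ∫ θ, (starRingEnd ℂ) (ZT (1 / 2) θ) ^ 2 * mt θ (h, l) ∂(TT N) = W1 h l := by
  have e1 : ∀ θ : Ix N → ℝ, (starRingEnd ℂ) (ZT (1 / 2) θ) ^ 2 * mt θ (h, l) =
      ((h : ℂ) ^ (-(1 / 2) : ℂ) * (l : ℂ) ^ (-(1 / 2) : ℂ)) *
      ∏ p : Ix N, (ec ((((h.factorization p.1 : ℤ) - l.factorization p.1 : ℤ) : ℝ) * θ p) *
        ((starRingEnd ℂ) ((1 - ub N (1 / 2) p * ec (θ p))⁻¹)) ^ 2) := by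
    intro θ
    rw [mt_apply]
    unfold ZT chi
    rw [map_prod, map_prod, ← prod_mul_distrib, ← prod_pow, mul_left_comm, ← prod_mul_distrib]
    congr 1
    refine prod_congr rfl fun p _ => ?_
    rw [ec_conj, ← ec_add, mul_comm]
    congr 2
    push_cast; ring
  simp_rw [e1]
  rw [integral_const_mul]
  unfold TT
  rw [integral_fintype_prod_eq_prod (𝕜 := ℂ) (f := fun (p : Ix N) (x : ℝ) =>
    ec ((((h.factorization p.1 : ℤ) - l.factorization p.1 : ℤ) : ℝ) * x) *
      ((starRingEnd ℂ) ((1 - ub N (1 / 2) p * ec x)⁻¹)) ^ 2)]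
  rw [prod_congr rfl fun p _ => int_sq (ub_half_norm p) _]
  unfold W1
  split_ifs with hd
  · obtain ⟨m, rfl⟩ := hd
    have hm : m ≠ 0 := by rintro rfl; simp at hh
    have hmN : m < N := lt_of_le_of_lt (Nat.le_mul_of_pos_left m (Nat.pos_of_ne_zero hl)) hN
    have e2 : ∀ p : Ix N, (if (0:ℤ) ≤ (((l * m).factorization p.1 : ℤ) - l.factorization p.1 : ℤ) then
        (((((l * m).factorization p.1 : ℤ) - l.factorization p.1 : ℤ).natAbs : ℂ) + 1) *
          (starRingEnd ℂ) (ub N (1 / 2) p) ^ ((((l * m).factorization p.1 : ℤ) - l.factorization p.1 : ℤ).natAbs) else 0) =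
        ((((m.factorization p.1 : ℕ) : ℂ) + 1) * (ub N (1 / 2) p) ^ (m.factorization p.1)) := by
      intro p
      have e3 : (((l * m).factorization p.1 : ℤ) - l.factorization p.1 : ℤ) = ((m.factorization p.1 : ℕ) : ℤ) := by
        rw [Nat.factorization_mul hl hm]
        simp only [Finsupp.add_apply]
        push_cast; ring
      rw [e3, if_pos (by positivity), Int.natAbs_natCast, ub_half_conj]
    rw [prod_congr rfl fun p _ => e2 p, prod_mul_distrib, prod_card hm hmN, prod_half hm hmN,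
      Nat.mul_div_cancel_left _ (Nat.pos_of_ne_zero hl), natCast_half hm, natCast_half hl, natCast_half hh]
    have hl0 : (0:ℝ) < l := by exact_mod_cast Nat.pos_of_ne_zero hl
    have hm0 : (0:ℝ) < m := by exact_mod_cast Nat.pos_of_ne_zero hm
    have e4 : Real.exp (-(1 / 2) * Real.log ((l * m : ℕ) : ℝ)) * Real.exp (-(1 / 2) * Real.log (l : ℝ)) *
        Real.exp (-(1 / 2) * Real.log (m : ℝ)) = 1 / (((l * m : ℕ)) : ℝ) := by
      rw [← Real.exp_add, ← Real.exp_add]
      push_cast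
      rw [Real.log_mul hl0.ne' hm0.ne']
      have : -(1 / 2) * (Real.log (l:ℝ) + Real.log (m:ℝ)) + -(1 / 2) * Real.log (l:ℝ) + -(1 / 2) * Real.log (m:ℝ) =
        -(Real.log (l * m)) := by rw [Real.log_mul hl0.ne' hm0.ne']; ring
      rw [this, Real.exp_neg, Real.exp_log (by positivity)]
      ring
    have e5 : ((Real.exp (-(1 / 2) * Real.log ((l * m : ℕ) : ℝ)) : ℝ) : ℂ) * ((Real.exp (-(1 / 2) * Real.log (l : ℝ)) : ℝ) : ℂ) *
        ((m.divisors.card : ℂ) * ((Real.exp (-(1 / 2) * Real.log (m : ℝ)) : ℝ) : ℂ)) =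
        (m.divisors.card : ℂ) * (((Real.exp (-(1 / 2) * Real.log ((l * m : ℕ) : ℝ)) * Real.exp (-(1 / 2) * Real.log (l : ℝ)) *
        Real.exp (-(1 / 2) * Real.log (m : ℝ)) : ℝ)) : ℂ) := by
      push_cast; ring
    rw [e5, e4]
    push_cast
    ring
  · have h1 : ∃ p : Ix N, h.factorization p.1 < l.factorization p.1 := by
      by_contra hcon
      push Not at hcon
      apply hd
      rw [← Nat.factorization_le_iff_dvd hl hh]
      intro q
      by_cases hq : q.Prime
      · by_cases hqN : q < N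
        · exact hcon ⟨q, Nat.mem_primesBelow.mpr ⟨hqN, hq⟩⟩
        · have : ¬ q ∣ l := fun hql => by
            have := Nat.le_of_dvd (Nat.pos_of_ne_zero hl) hql
            omega
          rw [Nat.factorization_eq_zero_of_not_dvd this]
          exact Nat.zero_le _
      · rw [Nat.factorization_eq_zero_of_not_prime _ hq]
        exact Nat.zero_le _
    obtain ⟨p, hp⟩ := h1
    rw [Finset.prod_eq_zero (mem_univ p), mul_zero]
    rw [if_neg]
    omega

end

end Pool.Agent.TH197.N4_TW1
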