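import Pool.Agent.TH806.Om
import Pool.Agent.TH806.TwQ
import Pool.Agent.TH197.N4_TW1b

set_option autoImplicit false

/-!
N4 project (helper806), part TW1: the two sides of the first moment.
-/

namespace Pool.Agent.TH197.N4_TW1

open Finset Filter Topology MeasureTheory Complex MonoidAlgebra
open Pool.Agent.W184.NZ Pool.Agent.TH806
open Pool.Agent.H306R2.SM (om cl Yf)
open Pool.Agent.H262R4.TM (Rng Ck)
open Pool.Agent.H448R2.GC (cu cs ker XX scale_integral scale_integrable)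

noncomputable section

variable {N : ℕ}

/-- the Dirichlet polynomial on the torus -/
def ST (f : ℕ → ℂ) (M : ℕ) (θ : Ix N → ℝ) : ℂ := ∑ m ∈ Icc 1 M, f m * ((m : ℂ) ^ (-(1 / 2) : ℂ) * chi θ m)

/-- the main term -/
def MT (f : ℕ → ℂ) (M : ℕ) (G : DA) : ℂ :=
  ∑ x ∈ G.coeff.support, ∑ h1 ∈ Icc 1 M, ∑ h2 ∈ Icc 1 M,
    ((G.coeff x : ℂ) * (f h1 * f h2)) * W1 (h1 * h2 * x.1) x.2

lemma ZTh_cont : Continuous fun θ : Ix N → ℝ => ZT (1 / 2) θ := by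
  have h1 := (ZT_cont (N := N) (w := (1 / 2 : ℂ)) (by norm_num)).comp
      (Continuous.prodMk (continuous_const (y := (0:ℝ))) continuous_id)
  refine h1.congr fun θ => ?_
  simp only [Function.comp, id]
  congr 1; simp

lemma ZTh_bdd : ∃ B : ℝ, 0 ≤ B ∧ ∀ θ : Ix N → ℝ, ‖ZT (1 / 2) θ‖ ≤ B := by
  obtain ⟨B, h0, h⟩ := ZT_bdd (N := N) (σ := 1 / 2) (by norm_num)
  exact ⟨B, h0, fun θ => h (1 / 2) (by norm_num) θ⟩

lemma W_int {x : ℕ × ℕ} (h1 : x.1 ≠ 0) (h2 : x.2 ≠ 0) :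
    Integrable (fun θ : Ix N → ℝ => (starRingEnd ℂ) (ZT (1 / 2) θ) ^ 2 * mt θ x) (TT N) := by
  obtain ⟨B, hB0, hB⟩ := ZTh_bdd (N := N)
  refine Integrable.of_bound (C := B ^ 2) ?_ (Filter.Eventually.of_forall fun θ => ?_)
  · exact (((Complex.continuous_conj.comp ZTh_cont).pow 2).mul (mt_cont x)).aestronglyMeasurable
  · rw [norm_mul, norm_pow, Complex.norm_conj]
    calc _ ≤ B ^ 2 * 1 := mul_le_mul (pow_le_pow_left₀ (norm_nonneg _) (hB θ) 2) (mt_norm_le θ h1 h2)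
          (norm_nonneg _) (by positivity)
      _ = _ := mul_one _

lemma sq_expand (f : ℕ → ℂ) (M : ℕ) (G : DA) (φ : ℕ × ℕ →* ℂ) (S E : ℂ) (hS : S = ∑ m ∈ Icc 1 M, f m * φ (m, 1))
    (hE : E = ∑ x ∈ G.coeff.support, (G.coeff x : ℂ) * φ x) (A : ℂ) :
    A * S ^ 2 * E = ∑ x ∈ G.coeff.support, ∑ h1 ∈ Icc 1 M, ∑ h2 ∈ Icc 1 M,
      ((G.coeff x : ℂ) * (f h1 * f h2)) * (A * φ (h1 * h2 * x.1, x.2)) := by
  rw [pow_two, hS, sum_mul_sum, hE, mul_sum]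
  refine sum_congr rfl fun x _ => ?_
  rw [mul_sum, sum_mul]
  refine sum_congr rfl fun h1 _ => ?_
  rw [mul_sum, sum_mul]
  refine sum_congr rfl fun h2 _ => ?_
  have e : φ (h1 * h2 * x.1, x.2) = φ (h1, 1) * φ (h2, 1) * φ x := by
    rw [← map_mul, ← map_mul]
    congr 1
    ext <;> simp
  rw [e]; ring

theorem tor_side (f : ℕ → ℂ) (M : ℕ) {B : ℝ} {G : DA} (hG : Bd B G) (hN : (M:ℝ) * M * B < N) (hB : B < N) :
    ∫ θ, (starRingEnd ℂ) (ZT (1 / 2) θ) ^ 2 * ST f M θ ^ 2 * evt θ G ∂(TT N) = MT f M G := by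
  have hx : ∀ x ∈ G.coeff.support, ∀ h1 ∈ Icc 1 M, ∀ h2 ∈ Icc 1 M,
      (h1 * h2 * x.1 ≠ 0 ∧ x.2 ≠ 0) ∧ h1 * h2 * x.1 < N ∧ x.2 < N := by
    intro x hx h1 hh1 h2 hh2
    rw [Finset.mem_Icc] at hh1 hh2
    obtain ⟨⟨a1, a2⟩, a3, a4⟩ := hG x hx
    refine ⟨⟨Nat.mul_ne_zero (Nat.mul_ne_zero (by omega) (by omega)) a1, a2⟩, ?_, ?_⟩
    · have : ((h1 * h2 * x.1 : ℕ) : ℝ) < N := by
        refine lt_of_le_of_lt ?_ hN
        push_cast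
        have b1 : (h1:ℝ) ≤ M := by exact_mod_cast hh1.2
        have b2 : (h2:ℝ) ≤ M := by exact_mod_cast hh2.2
        gcongr
      exact_mod_cast this
    · have : (x.2 : ℝ) < N := lt_of_le_of_lt a4 hB
      exact_mod_cast this
  have e1 : ∀ θ : Ix N → ℝ, (starRingEnd ℂ) (ZT (1 / 2) θ) ^ 2 * ST f M θ ^ 2 * evt θ G =
      ∑ x ∈ G.coeff.support, ∑ h1 ∈ Icc 1 M, ∑ h2 ∈ Icc 1 M,
      ((G.coeff x : ℂ) * (f h1 * f h2)) * ((starRingEnd ℂ) (ZT (1 / 2) θ) ^ 2 * mt θ (h1 * h2 * x.1, x.2)) := by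
    intro θ
    refine sq_expand f M G (mt θ) _ _ ?_ (evt_apply θ G) _
    unfold ST
    refine sum_congr rfl fun m _ => ?_
    rw [mt_apply]
    simp [chi_one]
  have hint : ∀ x ∈ G.coeff.support, ∀ h1 ∈ Icc 1 M, ∀ h2 ∈ Icc 1 M,
      Integrable (fun θ : Ix N → ℝ => ((G.coeff x : ℂ) * (f h1 * f h2)) *
        ((starRingEnd ℂ) (ZT (1 / 2) θ) ^ 2 * mt θ (h1 * h2 * x.1, x.2))) (TT N) := by
    intro x hx' h1 hh1 h2 hh2
    obtain ⟨⟨a1, a2⟩, _, _⟩ := hx x hx' h1 hh1 h2 hh2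
    exact (W_int (N := N) (x := (h1 * h2 * x.1, x.2)) a1 a2).const_mul _
  simp_rw [e1]
  unfold MT
  rw [integral_finsetSum _ fun x hx' => integrable_finsetSum _ fun h1 hh1 => integrable_finsetSum _ fun h2 hh2 =>
    hint x hx' h1 hh1 h2 hh2]
  refine sum_congr rfl fun x hx' => ?_
  rw [integral_finsetSum _ fun h1 hh1 => integrable_finsetSum _ fun h2 hh2 => hint x hx' h1 hh1 h2 hh2]
  refine sum_congr rfl fun h1 hh1 => ?_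
  rw [integral_finsetSum _ fun h2 hh2 => hint x hx' h1 hh1 h2 hh2]
  refine sum_congr rfl fun h2 hh2 => ?_
  obtain ⟨⟨a1, a2⟩, a3, a4⟩ := hx x hx' h1 hh1 h2 hh2
  rw [integral_const_mul, int_mono a1 a2 a3 a4]

lemma DP_mh (f : ℕ → ℂ) (M : ℕ) (t : ℝ) : DP f M t = ∑ m ∈ Icc 1 M, f m * mh t (m, 1) := by
  unfold DP
  refine sum_congr rfl fun m _ => ?_
  rw [mh_eq t m one_ne_zero]
  simp

lemma Z_int (κ : ℕ) {T : ℝ} (hδ : 0 < (κ:ℝ) / T) {F : ℝ → ℂ} (hF : Continuous F) {C : ℝ} (hC : ∀ t, ‖F t‖ ≤ C) :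
    IntegrableOn (fun t => ((om κ (κ / T) t : ℝ) : ℂ) * ((starRingEnd ℂ) (riemannZeta (cl t)) ^ 2 * F t))
      (Set.Ioi 0) := by
  have h1 := (Pool.Agent.H262R4.TM.TTW.int2 κ hδ).mul_const C
  refine Integrable.mono' h1 ?_ ?_
  · exact (((Complex.continuous_ofReal.comp (Pool.Agent.H262R4.TM.TTW.om_cont κ _))).mul
      (((Complex.continuous_conj.comp Pool.Agent.H262R4.TM.TTW.zeta_cont).pow 2).mul hF)).aestronglyMeasurable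
  · refine (ae_restrict_iff' measurableSet_Ioi).mpr (Eventually.of_forall fun t ht => ?_)
    have ht0 : 0 < t := ht
    rw [norm_mul, norm_mul, norm_pow, Complex.norm_conj, Complex.norm_real, Real.norm_eq_abs,
      abs_of_nonneg (om_nn κ hδ ht0.le)]
    have hw : 0 ≤ om κ (κ / T) t * ‖riemannZeta (cl t)‖ ^ 2 := mul_nonneg (om_nn κ hδ ht0.le) (sq_nonneg _)
    have := mul_le_mul_of_nonneg_left (hC t) hw
    linarith

theorem zeta_side {κ : ℕ} {T ϑ : ℝ} (hδ : 0 < (κ:ℝ) / T)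
    (H : ∀ h l : ℕ, 1 ≤ h → 1 ≤ l → (h : ℝ) ≤ T ^ ϑ → (l : ℝ) ≤ T →
      ‖(∫ t in Set.Ioi (0 : ℝ), ((om κ (κ / T) t : ℝ) : ℂ) * ((starRingEnd ℂ) (riemannZeta (cl t)) ^ 2 * mh t (h, l))) -
      W1 h l‖ ≤ T ^ (-1 : ℝ)) {f : ℕ → ℂ} (hf : ∀ n, n ≠ 0 → ‖f n‖ ≤ 1) (M : ℕ) {B : ℝ} {G : DA} (hG : Bd B G)
    (hN : (M:ℝ) * M * B ≤ T ^ ϑ) (hB : B ≤ T) :
    ‖(∫ t in Set.Ioi (0 : ℝ), ((om κ (κ / T) t : ℝ) : ℂ) *
        ((starRingEnd ℂ) (riemannZeta (cl t)) ^ 2 * DP f M t ^ 2 * ev t G)) - MT f M G‖ ≤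
      l1 G * ((M:ℝ) * M * T ^ (-1 : ℝ)) := by
  have hx : ∀ x ∈ G.coeff.support, ∀ h1 ∈ Icc 1 M, ∀ h2 ∈ Icc 1 M,
      (h1 * h2 * x.1 ≠ 0 ∧ x.2 ≠ 0) ∧ ((h1 * h2 * x.1 : ℕ) : ℝ) ≤ T ^ ϑ ∧ (x.2 : ℝ) ≤ T := by
    intro x hx h1 hh1 h2 hh2
    rw [Finset.mem_Icc] at hh1 hh2
    obtain ⟨⟨a1, a2⟩, a3, a4⟩ := hG x hx
    refine ⟨⟨Nat.mul_ne_zero (Nat.mul_ne_zero (by omega) (by omega)) a1, a2⟩, ?_, a4.trans hB⟩
    refine le_trans ?_ hN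
    push_cast
    have b1 : (h1:ℝ) ≤ M := by exact_mod_cast hh1.2
    have b2 : (h2:ℝ) ≤ M := by exact_mod_cast hh2.2
    gcongr
  have e1 : ∀ t : ℝ, ((om κ (κ / T) t : ℝ) : ℂ) *
        ((starRingEnd ℂ) (riemannZeta (cl t)) ^ 2 * DP f M t ^ 2 * ev t G) =
      ∑ x ∈ G.coeff.support, ∑ h1 ∈ Icc 1 M, ∑ h2 ∈ Icc 1 M,
      ((G.coeff x : ℂ) * (f h1 * f h2)) * (((om κ (κ / T) t : ℝ) : ℂ) *
        ((starRingEnd ℂ) (riemannZeta (cl t)) ^ 2 * mh t (h1 * h2 * x.1, x.2))) := by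
    intro t
    rw [sq_expand f M G (mh t) _ _ (DP_mh f M t) (ev_apply t G), mul_sum]
    refine sum_congr rfl fun x _ => ?_
    rw [mul_sum]
    refine sum_congr rfl fun h1 _ => ?_
    rw [mul_sum]
    refine sum_congr rfl fun h2 _ => ?_
    ring
  have hint : ∀ x ∈ G.coeff.support, ∀ h1 ∈ Icc 1 M, ∀ h2 ∈ Icc 1 M,
      Integrable (fun t => ((G.coeff x : ℂ) * (f h1 * f h2)) * (((om κ (κ / T) t : ℝ) : ℂ) *
        ((starRingEnd ℂ) (riemannZeta (cl t)) ^ 2 * mh t (h1 * h2 * x.1, x.2)))) (volume.restrict (Set.Ioi 0)) := by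
    intro x hx' h1 hh1 h2 hh2
    obtain ⟨⟨a1, a2⟩, _, _⟩ := hx x hx' h1 hh1 h2 hh2
    exact (Z_int κ hδ (mh_cont (x := (h1 * h2 * x.1, x.2)) a1 a2) (C := 1)
      fun t => mh_norm_le (x := (h1 * h2 * x.1, x.2)) a1 a2).const_mul _
  simp_rw [e1]
  rw [integral_finsetSum _ fun x hx' => integrable_finsetSum _ fun h1 hh1 => integrable_finsetSum _ fun h2 hh2 =>
    hint x hx' h1 hh1 h2 hh2]
  unfold MT
  rw [← sum_sub_distrib]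
  refine (norm_sum_le _ _).trans ?_
  unfold l1
  rw [sum_mul]
  refine sum_le_sum fun x hx' => ?_
  rw [integral_finsetSum _ fun h1 hh1 => integrable_finsetSum _ fun h2 hh2 => hint x hx' h1 hh1 h2 hh2,
    ← sum_sub_distrib]
  have key : ∀ h1 ∈ Icc 1 M, ∀ h2 ∈ Icc 1 M,
      ‖(∫ t in Set.Ioi (0 : ℝ), ((G.coeff x : ℂ) * (f h1 * f h2)) * (((om κ (κ / T) t : ℝ) : ℂ) *
        ((starRingEnd ℂ) (riemannZeta (cl t)) ^ 2 * mh t (h1 * h2 * x.1, x.2)))) -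
        ((G.coeff x : ℂ) * (f h1 * f h2)) * W1 (h1 * h2 * x.1) x.2‖ ≤ |G.coeff x| * T ^ (-1 : ℝ) := by
    intro h1 hh1 h2 hh2
    obtain ⟨⟨a1, a2⟩, a3, a4⟩ := hx x hx' h1 hh1 h2 hh2
    have hH := H (h1 * h2 * x.1) x.2 (Nat.one_le_iff_ne_zero.mpr a1) (Nat.one_le_iff_ne_zero.mpr a2) a3 a4
    rw [Finset.mem_Icc] at hh1 hh2
    rw [integral_const_mul, ← mul_sub, norm_mul, norm_mul, norm_mul, Complex.norm_real, Real.norm_eq_abs]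
    have b1 := hf h1 (by omega)
    have b2 := hf h2 (by omega)
    have b3 : ‖f h1‖ * ‖f h2‖ ≤ 1 := by
      calc _ ≤ (1:ℝ) * 1 := mul_le_mul b1 b2 (norm_nonneg _) zero_le_one
        _ = 1 := one_mul 1
    have b4 : |G.coeff x| * (‖f h1‖ * ‖f h2‖) ≤ |G.coeff x| := mul_le_of_le_one_right (abs_nonneg _) b3
    exact mul_le_mul b4 hH (norm_nonneg _) (abs_nonneg _)
  calc _ ≤ ∑ h1 ∈ Icc 1 M, ∑ h2 ∈ Icc 1 M, |G.coeff x| * T ^ (-1 : ℝ) := by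
        refine (norm_sum_le _ _).trans (sum_le_sum fun h1 hh1 => ?_)
        rw [integral_finsetSum _ fun h2 hh2 => hint x hx' h1 hh1 h2 hh2, ← sum_sub_distrib]
        exact (norm_sum_le _ _).trans (sum_le_sum fun h2 hh2 => key h1 hh1 h2 hh2)
    _ = _ := by
        rw [sum_const, sum_const, Nat.card_Icc]
        simp only [nsmul_eq_mul, Nat.add_sub_cancel]
        ring

end

end Pool.Agent.TH197.N4_TW1
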