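import Mathlib

set_option autoImplicit false

/-!
N4 project (helper806), part TW1: Fubini for the square of an integral.
-/

namespace Pool.Agent.TH197.N4_TW1

open MeasureTheory

theorem fub_abs {ι : Type*} [Fintype ι] (μ : Measure (ι → ℝ)) [IsProbabilityMeasure μ] {Φ : (ι → ℝ) → ℂ}
    (hΦc : Continuous Φ) {A : ℝ} (hΦb : ∀ θ, ‖Φ θ‖ ≤ A) {K : ℝ → ℂ} (hKc : Continuous K) {g : ℝ → ℝ}
    (hg : Integrable g) (hK : ∀ v, ‖K v‖ ≤ g v) {Z : ℝ → (ι → ℝ) → ℂ}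
    (hZc : Continuous fun q : ℝ × (ι → ℝ) => Z q.1 q.2) {B : ℝ} (hZb : ∀ v θ, ‖Z v θ‖ ≤ B) :
    Integrable (fun v : ℝ × ℝ => K v.1 * K v.2 * ∫ θ, Φ θ * (Z v.1 θ * Z v.2 θ) ∂μ) ∧
    ∫ θ, Φ θ * (∫ v : ℝ, K v * Z v θ) ^ 2 ∂μ =
      ∫ v : ℝ × ℝ, K v.1 * K v.2 * ∫ θ, Φ θ * (Z v.1 θ * Z v.2 θ) ∂μ := by
  have hA : 0 ≤ A := (norm_nonneg _).trans (hΦb 0)
  have hB : 0 ≤ B := (norm_nonneg _).trans (hZb 0 0)
  have hg0 : ∀ v, 0 ≤ g v := fun v => (norm_nonneg _).trans (hK v)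
  set H : (ι → ℝ) × (ℝ × ℝ) → ℂ := fun q => Φ q.1 * ((K q.2.1 * Z q.2.1 q.1) * (K q.2.2 * Z q.2.2 q.1)) with hH
  have hgg : Integrable (fun v : ℝ × ℝ => g v.1 * g v.2) := hg.mul_prod hg
  have hHc : Continuous H := by
    have m1 : Continuous fun q : (ι → ℝ) × (ℝ × ℝ) => (q.2.1, q.1) := by fun_prop
    have m2 : Continuous fun q : (ι → ℝ) × (ℝ × ℝ) => (q.2.2, q.1) := by fun_prop
    have c1 : Continuous fun q : (ι → ℝ) × (ℝ × ℝ) => Z q.2.1 q.1 := hZc.comp m1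
    have c2 : Continuous fun q : (ι → ℝ) × (ℝ × ℝ) => Z q.2.2 q.1 := hZc.comp m2
    have c3 : Continuous fun q : (ι → ℝ) × (ℝ × ℝ) => K q.2.1 := hKc.comp (by fun_prop)
    have c4 : Continuous fun q : (ι → ℝ) × (ℝ × ℝ) => K q.2.2 := hKc.comp (by fun_prop)
    exact (hΦc.comp continuous_fst).mul ((c3.mul c1).mul (c4.mul c2))
  have hHi : Integrable H (μ.prod (volume : Measure (ℝ × ℝ))) := by
    have hdom : Integrable (fun q : (ι → ℝ) × (ℝ × ℝ) => (A * B ^ 2) * (g q.2.1 * g q.2.2))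
        (μ.prod (volume : Measure (ℝ × ℝ))) := (integrable_const (A * B ^ 2)).mul_prod hgg
    refine hdom.mono' hHc.aestronglyMeasurable (Filter.Eventually.of_forall fun q => ?_)
    rw [hH]; simp only
    rw [norm_mul, norm_mul, norm_mul, norm_mul]
    have a1 := hΦb q.1
    have a2 := hK q.2.1
    have a3 := hK q.2.2
    have a4 := hZb q.2.1 q.1
    have a5 := hZb q.2.2 q.1
    have b1 := hg0 q.2.1
    have b2 := hg0 q.2.2
    calc ‖Φ q.1‖ * (‖K q.2.1‖ * ‖Z q.2.1 q.1‖ * (‖K q.2.2‖ * ‖Z q.2.2 q.1‖)) ≤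
        A * ((g q.2.1 * B) * (g q.2.2 * B)) := by
          have c1 := mul_le_mul a2 a4 (norm_nonneg _) b1
          have c2 := mul_le_mul a3 a5 (norm_nonneg _) b2
          exact mul_le_mul a1 (mul_le_mul c1 c2 (by positivity) (by positivity)) (by positivity) (by positivity)
      _ = _ := by ring
  have e1 : ∀ v : ℝ × ℝ, ∫ θ, H (θ, v) ∂μ = K v.1 * K v.2 * ∫ θ, Φ θ * (Z v.1 θ * Z v.2 θ) ∂μ := by
    intro v
    rw [← integral_const_mul]
    refine integral_congr_ae (Filter.Eventually.of_forall fun θ => ?_)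
    simp only [hH]
    ring
  constructor
  · exact (hHi.integral_prod_right).congr (Filter.Eventually.of_forall e1)
  · have e2 : ∀ θ : ι → ℝ, Φ θ * (∫ v : ℝ, K v * Z v θ) ^ 2 = ∫ v : ℝ × ℝ, H (θ, v) := by
      intro θ
      have h1 : ∫ v : ℝ × ℝ, (K v.1 * Z v.1 θ) * (K v.2 * Z v.2 θ) =
          (∫ v : ℝ, K v * Z v θ) * (∫ v : ℝ, K v * Z v θ) :=
        integral_prod_mul (μ := (volume : Measure ℝ)) (ν := (volume : Measure ℝ))
          (fun v : ℝ => K v * Z v θ) (fun v : ℝ => K v * Z v θ)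
      rw [pow_two, ← h1, ← integral_const_mul]
    simp_rw [e2]
    rw [integral_integral_swap (f := fun θ v => H (θ, v)) hHi]
    exact integral_congr_ae (Filter.Eventually.of_forall e1)

end Pool.Agent.TH197.N4_TW1
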