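import Pool.Agent.TH806.N4.Defs2
import Pool.Agent.TH197.N4_TW1c
import Pool.Agent.TH197.N4_TW1d

set_option autoImplicit false

/-!
N4 project (helper806), part TW1: decoupling of the multiplier in the first moment of `conj ζ² A²`.
-/

namespace Pool.Agent.TH197.N4_TW1

open Finset Filter Topology MeasureTheory Complex MonoidAlgebra
open Pool.Agent.W184.NZ Pool.Agent.TH806 Pool.Agent.TH806.N4
open Pool.Agent.H306R2.SM (om cl Yf)
open Pool.Agent.H262R4.TM (Rng Ck)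
open Pool.Agent.H448R2.GC (cu cs ker XX scale_integral scale_integrable)

noncomputable section

variable {N : ℕ}

lemma CK_nonneg {L : ℝ} (hL : 1 ≤ L) {k : ℕ} {CK : ℝ} {f : ℕ → ℂ} {M : ℕ} {K : ℝ → ℂ}
    (hK : KRep L k CK f M K) : 0 ≤ CK := by
  have h1 := (norm_nonneg _).trans (hK.Kb 0)
  by_contra hcon
  push Not at hcon
  have h2 : 0 < L / (1 + L * |(0:ℝ)|) ^ (k + 1) := by simp; linarith
  nlinarith

/-- Fubini -/
theorem fub {L : ℝ} (hL : 1 ≤ L) {k : ℕ} (hk : 1 ≤ k) {CK : ℝ} {f : ℕ → ℂ} {M : ℕ} {K : ℝ → ℂ}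
    (hK : KRep L k CK f M K) (hN : M < N) {B : ℝ} {G : DA} (hG : Bd B G) :
    Integrable (fun v : ℝ × ℝ => K v.1 * K v.2 * F1 N L v.1 v.2 G) ∧
    ∫ θ, (starRingEnd ℂ) (ZT (1 / 2) θ) ^ 2 * ST f M θ ^ 2 * evt θ G ∂(TT N) =
      (1 / (2 * Real.pi) : ℂ) ^ 2 * ∫ v : ℝ × ℝ, K v.1 * K v.2 * F1 N L v.1 v.2 G := by
  have hL0 : 0 < L := by linarith
  have hLi : 0 < 1 / L := by positivity
  obtain ⟨B1, hB10, hB1⟩ := ZTh_bdd (N := N)
  obtain ⟨B2, hB20, hB2⟩ := ZT_bdd (N := N) (σ := 1 / 2 + 1 / L) (by positivity)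
  have hB2' : ∀ (v : ℝ) (θ : Ix N → ℝ), ‖ZT (wp (1 / L) v) θ‖ ≤ B2 := fun v θ => hB2 _ (by unfold wp; simp) θ
  have hΦc : Continuous fun θ : Ix N → ℝ => (starRingEnd ℂ) (ZT (1 / 2) θ) ^ 2 * evt θ G :=
    ((Complex.continuous_conj.comp ZTh_cont).pow 2).mul (evt_cont G)
  have hΦb : ∀ θ : Ix N → ℝ, ‖(starRingEnd ℂ) (ZT (1 / 2) θ) ^ 2 * evt θ G‖ ≤ B1 ^ 2 * l1 G := by
    intro θ
    rw [norm_mul, norm_pow, Complex.norm_conj]
    exact mul_le_mul (pow_le_pow_left₀ (norm_nonneg _) (hB1 θ) 2) (evt_norm_le hG θ) (norm_nonneg _) (by positivity)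
  have hg := (scale_integrable L (k + 1) hL (by omega)).const_mul CK
  have hZc : Continuous fun q : ℝ × (Ix N → ℝ) => ZT (wp (1 / L) q.1) q.2 :=
    ZT_cont (N := N) (w := ((1 / 2 + 1 / L : ℝ) : ℂ)) (by rw [Complex.ofReal_re]; positivity)
  have hF := fub_abs (TT N) hΦc hΦb hK.Kc hg hK.Kb (Z := fun v θ => ZT (wp (1 / L) v) θ) hZc hB2'
  have e1 : ∀ v1 v2 : ℝ, ∫ θ, (starRingEnd ℂ) (ZT (1 / 2) θ) ^ 2 * evt θ G *
      (ZT (wp (1 / L) v1) θ * ZT (wp (1 / L) v2) θ) ∂(TT N) = F1 N L v1 v2 G := by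
    intro v1 v2
    unfold F1
    refine integral_congr_ae (Filter.Eventually.of_forall fun θ => ?_)
    simp only
    ring
  obtain ⟨i1, i2⟩ := hF
  simp only [e1] at i1 i2
  refine ⟨i1, ?_⟩
  rw [← i2, ← integral_const_mul]
  refine integral_congr_ae (Filter.Eventually.of_forall fun θ => ?_)
  have h2 : ST f M θ = (1 / (2 * Real.pi) : ℂ) * ∫ v : ℝ, K v * ZT (wp (1 / L) v) θ := hK.rep N hN θ
  simp only
  rw [h2]
  ring

/-- decoupling of the main terms -/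
theorem main_dec {L C : ℝ} (hL : 1 ≤ L) {k : ℕ} (hk : 3 ≤ k) {CK : ℝ} {f : ℕ → ℂ} {M : ℕ} {K : ℝ → ℂ}
    (hK : KRep L k CK f M K) (hN : M < N) {B : ℝ} {G : DA} (hG : Bd B G) (hG1 : Bd B 1) {lm : ℝ} (hC : 0 ≤ C)
    (hD : ∀ v1 v2 : ℝ, ‖F1 N L v1 v2 G - (lm : ℂ) * F1 N L v1 v2 1‖ ≤ C * ((1 + L * |v1|) * (1 + L * |v2|))) :
    ‖(∫ θ, (starRingEnd ℂ) (ZT (1 / 2) θ) ^ 2 * ST f M θ ^ 2 * evt θ G ∂(TT N)) -
      (lm : ℂ) * ∫ θ, (starRingEnd ℂ) (ZT (1 / 2) θ) ^ 2 * ST f M θ ^ 2 * evt θ 1 ∂(TT N)‖ ≤ C * (4 * CK ^ 2) := by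
  have hL0 : 0 < L := by linarith
  have hCK := CK_nonneg hL hK
  obtain ⟨i1, e1⟩ := fub hL (by omega) hK hN hG
  obtain ⟨i2, e2⟩ := fub hL (by omega) hK hN hG1
  rw [e1, e2, mul_left_comm, ← mul_sub, ← integral_const_mul, ← integral_sub i1 (i2.const_mul _), norm_mul]
  have h5 : ‖(1 / (2 * Real.pi) : ℂ) ^ 2‖ ≤ 1 := by
    rw [norm_pow, norm_div, norm_one, norm_mul, Complex.norm_ofNat, Complex.norm_real, Real.norm_eq_abs,
      abs_of_pos Real.pi_pos]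
    have hpi := Real.pi_gt_three
    refine pow_le_one₀ (by positivity) ?_
    rw [div_le_one (by positivity)]
    linarith
  have hg := (scale_integrable L k hL (by omega)).const_mul CK
  have hgg : Integrable (fun v : ℝ × ℝ => (CK * (L / (1 + L * |v.1|) ^ k)) *
      (CK * (L / (1 + L * |v.2|) ^ k))) := hg.mul_prod hg
  have h6 : ‖∫ v : ℝ × ℝ, (K v.1 * K v.2 * F1 N L v.1 v.2 G - (lm : ℂ) * (K v.1 * K v.2 * F1 N L v.1 v.2 1))‖ ≤
      ∫ v : ℝ × ℝ, C * ((CK * (L / (1 + L * |v.1|) ^ k)) * (CK * (L / (1 + L * |v.2|) ^ k))) := by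
    refine norm_integral_le_of_norm_le (hgg.const_mul _) (Filter.Eventually.of_forall fun v => ?_)
    have e3 : K v.1 * K v.2 * F1 N L v.1 v.2 G - (lm : ℂ) * (K v.1 * K v.2 * F1 N L v.1 v.2 1) =
        K v.1 * K v.2 * (F1 N L v.1 v.2 G - (lm : ℂ) * F1 N L v.1 v.2 1) := by ring
    rw [e3, norm_mul, norm_mul]
    have a1 := hK.Kb v.1
    have a2 := hK.Kb v.2
    have b1 : 0 < 1 + L * |v.1| := by positivity
    have b2 : 0 < 1 + L * |v.2| := by positivity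
    have a3 := hD v.1 v.2
    calc ‖K v.1‖ * ‖K v.2‖ * ‖F1 N L v.1 v.2 G - (lm : ℂ) * F1 N L v.1 v.2 1‖ ≤
        ((CK * (L / (1 + L * |v.1|) ^ (k + 1))) * (CK * (L / (1 + L * |v.2|) ^ (k + 1)))) *
          (C * ((1 + L * |v.1|) * (1 + L * |v.2|))) := by gcongr
      _ = _ := by
          rw [pow_succ, pow_succ]
          field_simp
  have h7 : ∫ v : ℝ × ℝ, C * ((CK * (L / (1 + L * |v.1|) ^ k)) * (CK * (L / (1 + L * |v.2|) ^ k))) ≤
      C * (4 * CK ^ 2) := by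
    rw [integral_const_mul]
    refine mul_le_mul_of_nonneg_left ?_ hC
    have e4 : ∫ v : ℝ × ℝ, ((CK * (L / (1 + L * |v.1|) ^ k)) * (CK * (L / (1 + L * |v.2|) ^ k))) =
        (∫ v : ℝ, CK * (L / (1 + L * |v|) ^ k)) * (∫ v : ℝ, CK * (L / (1 + L * |v|) ^ k)) :=
      integral_prod_mul (μ := (volume : Measure ℝ)) (ν := (volume : Measure ℝ))
        (fun v : ℝ => CK * (L / (1 + L * |v|) ^ k)) (fun v : ℝ => CK * (L / (1 + L * |v|) ^ k))
    rw [e4, integral_const_mul]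
    have h8 := scale_integral L k hL (by omega)
    have h9 : 0 ≤ ∫ y : ℝ, L / (1 + L * |y|) ^ k := integral_nonneg fun v => by
      have : 0 ≤ L * |v| := by positivity
      positivity
    have h10 : CK * (∫ y : ℝ, L / (1 + L * |y|) ^ k) ≤ CK * 2 := mul_le_mul_of_nonneg_left h8 hCK
    have h11 : 0 ≤ CK * (∫ y : ℝ, L / (1 + L * |y|) ^ k) := mul_nonneg hCK h9
    nlinarith
  calc _ ≤ 1 * ‖∫ v : ℝ × ℝ, (K v.1 * K v.2 * F1 N L v.1 v.2 G - (lm : ℂ) * (K v.1 * K v.2 * F1 N L v.1 v.2 1))‖ :=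
        mul_le_mul_of_nonneg_right h5 (norm_nonneg _)
    _ ≤ _ := by rw [one_mul]; exact h6.trans h7

/-- the lower bound of the main order -/
lemma EV_low {c y a : ℝ} {J : ℕ} (h : BL c y J) (ha : |a| ≤ 1 / 16) : Real.exp (-c) ≤ Real.log y * EV J y a := by
  have hy : 1 < y := by linarith [h.y1]
  have hly : 0 < Real.log y := Real.log_pos hy
  have hV0 : 0 ≤ ∑ i ∈ range J, vI (II y i) := sum_nonneg fun i _ => vI_nonneg _
  have hV1 : ∑ i ∈ range J, vI (II y i) ≤ Real.log (Real.log y) + c := by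
    have := (abs_le.mp h.vv).2
    linarith
  unfold EV
  have e1 : Real.log y * Real.exp ((4 * a + a ^ 2) * ∑ i ∈ range J, vI (II y i)) =
      Real.exp (Real.log (Real.log y) + (4 * a + a ^ 2) * ∑ i ∈ range J, vI (II y i)) := by
    rw [Real.exp_add, Real.exp_log hly]
  rw [e1]
  apply Real.exp_le_exp.mpr
  obtain ⟨a1, a2⟩ := abs_le.mp ha
  have h1 : -1 ≤ 4 * a + a ^ 2 := by nlinarith [sq_nonneg a]
  have h2 : -1 * ∑ i ∈ range J, vI (II y i) ≤ (4 * a + a ^ 2) * ∑ i ∈ range J, vI (II y i) :=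
    mul_le_mul_of_nonneg_right h1 hV0
  linarith

/-- the final bound -/
lemma fin_bound {A1 A2 m1 m2 : ℂ} {ℓ B EVv ly L C1 CK c : ℝ} (hL : 1 ≤ L) (hly : 1 ≤ ly) (hE : 0 < EVv) (hC1 : 0 ≤ C1)
    (hlow : Real.exp (-c) ≤ ly * EVv) (hlam : |ℓ| ≤ B * EVv) (b1 : ‖A1 - m1‖ ≤ 1) (b2 : ‖A2 - m2‖ ≤ 1)
    (hd : ‖m1 - (ℓ : ℂ) * m2‖ ≤ C1 * ly * L ^ 3 * EVv * (4 * CK ^ 2)) :
    ‖A1 - (ℓ : ℂ) * A2‖ ≤ (C1 * (4 * CK ^ 2) + Real.exp c + |B|) * ly * L ^ 3 * EVv := by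
  have e1 : A1 - (ℓ : ℂ) * A2 = (A1 - m1) - (ℓ : ℂ) * (A2 - m2) + (m1 - (ℓ : ℂ) * m2) := by ring
  rw [e1]
  have hL3 : 1 ≤ L ^ 3 := one_le_pow₀ hL
  have hlE : 0 < ly * EVv := by positivity
  have h1le : 1 ≤ Real.exp c * (ly * L ^ 3 * EVv) := by
    have h1 : 1 = Real.exp c * Real.exp (-c) := by rw [← Real.exp_add]; simp
    calc (1:ℝ) = Real.exp c * Real.exp (-c) := h1
      _ ≤ Real.exp c * (ly * EVv) := mul_le_mul_of_nonneg_left hlow (Real.exp_pos _).le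
      _ ≤ Real.exp c * (ly * L ^ 3 * EVv) := by
          refine mul_le_mul_of_nonneg_left ?_ (Real.exp_pos _).le
          nlinarith
  have hEle : EVv ≤ ly * L ^ 3 * EVv := by
    have : 1 ≤ ly * L ^ 3 := by nlinarith
    nlinarith
  have b3 : ‖(ℓ : ℂ)‖ ≤ |B| * EVv := by
    rw [Complex.norm_real, Real.norm_eq_abs]
    exact hlam.trans (mul_le_mul_of_nonneg_right (le_abs_self B) hE.le)
  have b4 : ‖(ℓ : ℂ) * (A2 - m2)‖ ≤ (|B| * EVv) * 1 := by
    rw [norm_mul]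
    exact mul_le_mul b3 b2 (norm_nonneg _) (by positivity)
  have b5 : |B| * EVv ≤ |B| * (ly * L ^ 3 * EVv) := mul_le_mul_of_nonneg_left hEle (abs_nonneg _)
  have b6 : ‖(A1 - m1) - (ℓ : ℂ) * (A2 - m2) + (m1 - (ℓ : ℂ) * m2)‖ ≤
      ‖A1 - m1‖ + ‖(ℓ : ℂ) * (A2 - m2)‖ + ‖m1 - (ℓ : ℂ) * m2‖ := by
    refine (norm_add_le _ _).trans ?_
    have := norm_sub_le (A1 - m1) ((ℓ : ℂ) * (A2 - m2))
    linarith
  have e2 : (C1 * (4 * CK ^ 2) + Real.exp c + |B|) * ly * L ^ 3 * EVv =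
      C1 * ly * L ^ 3 * EVv * (4 * CK ^ 2) + Real.exp c * (ly * L ^ 3 * EVv) + |B| * (ly * L ^ 3 * EVv) := by ring
  rw [e2]
  linarith

theorem t_TW1 (hDL : P_DL) (hFM : P_FM) : P_TW1 := by
  refine ⟨1 / 400, by norm_num, by norm_num, ?_⟩
  intro k c B CK hk
  obtain ⟨C1, hC10, hC1⟩ := hDL c B
  refine ⟨C1 * (4 * CK ^ 2) + Real.exp c + |B|, by positivity, ?_⟩
  intro Rs hRs
  filter_upwards [hFM (397 / 400) (by norm_num), eventually_gt_atTop (3:ℝ),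
    Real.tendsto_log_atTop.eventually_gt_atTop 1] with T hT hT3 hL κ hκ y a J g φ G f M K hMG ha hlam hyT hK hM
  set L := Real.log T with hLdef
  have hT0 : 0 < T := by linarith
  have hk0 : (0:ℝ) < κ := by
    have := hκ.1
    nlinarith
  have hδ : 0 < (κ:ℝ) / T := by positivity
  have hBL := hMG.bl
  have hy1 := hBL.y1
  have hly : 1 ≤ Real.log y := by
    rw [Real.le_log_iff_exp_le (by linarith)]
    have := Real.exp_one_lt_d9
    linarith
  have hRs1 : (1:ℝ) ≤ Rs := by exact_mod_cast hRs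
  -- the length of the multiplier
  set B' := Real.exp (Real.log y * (320 * ((Rs:ℝ) + 1))) with hB'
  have hB'1 : B' ≤ T ^ (1 / 400 : ℝ) := by
    rw [hB', Real.rpow_def_of_pos hT0]
    apply Real.exp_le_exp.mpr
    linarith
  have hB'0 : 1 ≤ B' := by
    rw [hB', Real.one_le_exp_iff]; positivity
  have hlyL : Real.log y ≤ L := by nlinarith
  have hyT' : y ≤ T := by
    rw [hLdef] at hlyL
    exact (Real.log_le_log_iff (by linarith) hT0).mp hlyL
  have hT400 : T ^ (1 / 400 : ℝ) ≤ T := by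
    calc T ^ (1 / 400 : ℝ) ≤ T ^ (1:ℝ) := Real.rpow_le_rpow_of_exponent_le (by linarith) (by norm_num)
      _ = T := Real.rpow_one T
  have hMM : (M:ℝ) * M ≤ T ^ (99 / 100 : ℝ) := by
    calc (M:ℝ) * M ≤ T ^ (99 / 200 : ℝ) * T ^ (99 / 200 : ℝ) := by gcongr
      _ = T ^ (99 / 100 : ℝ) := by rw [← Real.rpow_add hT0]; norm_num
  have hMMB : (M:ℝ) * M * B' ≤ T ^ (397 / 400 : ℝ) := by
    calc (M:ℝ) * M * B' ≤ T ^ (99 / 100 : ℝ) * T ^ (1 / 400 : ℝ) := by gcongr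
      _ = T ^ (397 / 400 : ℝ) := by rw [← Real.rpow_add hT0]; norm_num
  have hMMB' : (M:ℝ) * M * B' ≤ T := by
    refine hMMB.trans ?_
    calc T ^ (397 / 400 : ℝ) ≤ T ^ (1:ℝ) := Real.rpow_le_rpow_of_exponent_le (by linarith) (by norm_num)
      _ = T := Real.rpow_one T
  have hMT : (M:ℝ) ≤ T := by
    refine hM.trans ?_
    calc T ^ (99 / 200 : ℝ) ≤ T ^ (1:ℝ) := Real.rpow_le_rpow_of_exponent_le (by linarith) (by norm_num)
      _ = T := Real.rpow_one T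
  -- the number of primes
  set N := ⌊T ^ 2⌋₊ with hN
  have hN1 : T < N := by
    have h1 := Nat.lt_floor_add_one (T ^ 2)
    rw [← hN] at h1
    nlinarith
  have hN2 : (N:ℝ) ≤ T ^ 2 := Nat.floor_le (by positivity)
  have hMN : M < N := by
    have : (M:ℝ) < N := lt_of_le_of_lt hMT hN1
    exact_mod_cast this
  have hpN : ∀ p : ℕ, p < N → Real.log p ≤ 3 * L := by
    intro p hp
    rcases Nat.eq_zero_or_pos p with h0 | h0
    · rw [h0]; simp; linarith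
    · have h1 : (p:ℝ) ≤ T ^ 2 := by
        have : (p:ℝ) ≤ N := by exact_mod_cast hp.le
        linarith
      have h2 := Real.log_le_log (by exact_mod_cast h0) h1
      rw [Real.log_pow] at h2
      push_cast at h2
      linarith
  have hyN : y < N := lt_of_le_of_lt hyT' hN1
  have hG := hMG.bd
  have hG1 : Bd B' 1 := by
    intro x hx
    rw [MonoidAlgebra.one_def, coeff_single] at hx
    have := Finsupp.support_single_subset hx
    rw [Finset.mem_singleton] at this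
    rw [this]
    refine ⟨⟨one_ne_zero, one_ne_zero⟩, ?_, ?_⟩
    · simpa using hB'0
    · simpa using hB'0
  -- the two sides
  have HH := hT κ hκ
  have z1 := zeta_side (ϑ := 397 / 400) hδ HH hK.fb M hG hMMB (hB'1.trans hT400)
  have z2 := zeta_side (ϑ := 397 / 400) hδ HH hK.fb M hG1 hMMB (hB'1.trans hT400)
  have s1 := tor_side (N := N) f M hG (lt_of_le_of_lt hMMB' hN1) (lt_of_le_of_lt (hB'1.trans hT400) hN1)
  have s2 := tor_side (N := N) f M hG1 (lt_of_le_of_lt hMMB' hN1) (lt_of_le_of_lt (hB'1.trans hT400) hN1)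
  have hEV : 0 < EV J y a := Real.exp_pos _
  have hd := main_dec (N := N) (C := C1 * Real.log y * L ^ 3 * EV J y a) hL.le hk hK hMN hG hG1
    (lm := lam w2 G) (by positivity) (fun v1 v2 =>
      (hC1 y L a N J Rs g φ G hMG hRs ha hlam hL.le hlyL hpN hyN v1 v2).1)
  rw [s1, s2] at hd
  -- the error terms
  have herr0 : (M:ℝ) * M * T ^ (-1 : ℝ) ≤ T ^ (-(1 / 100) : ℝ) := by
    calc (M:ℝ) * M * T ^ (-1 : ℝ) ≤ T ^ (99 / 100 : ℝ) * T ^ (-1 : ℝ) := by gcongr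
      _ = _ := by rw [← Real.rpow_add hT0]; norm_num
  have herr1 : l1 G * ((M:ℝ) * M * T ^ (-1 : ℝ)) ≤ 1 := by
    calc l1 G * ((M:ℝ) * M * T ^ (-1 : ℝ)) ≤ T ^ (1 / 400 : ℝ) * T ^ (-(1 / 100) : ℝ) :=
          mul_le_mul (hMG.l1.trans hB'1) herr0 (by positivity) (by positivity)
      _ = T ^ (-(3 / 400) : ℝ) := by rw [← Real.rpow_add hT0]; norm_num
      _ ≤ 1 := Real.rpow_le_one_of_one_le_of_nonpos (by linarith) (by norm_num)
  have herr2 : l1 1 * ((M:ℝ) * M * T ^ (-1 : ℝ)) ≤ 1 := by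
    rw [l1_one, one_mul]
    exact herr0.trans (Real.rpow_le_one_of_one_le_of_nonpos (by linarith) (by norm_num))
  -- real parts
  have hev : ∀ t : ℝ, ev t G = (((ev t G).re : ℝ) : ℂ) := by
    intro t
    rw [hMG.eq, map_prod]
    have : ∀ i ∈ range J, ev t (g i) = ((φ i (PI (II y i) (1 / 2 + t * Complex.I)) : ℝ) : ℂ) :=
      fun i _ => (hMG.blk i).evl t
    rw [prod_congr rfl this, ← Complex.ofReal_prod, Complex.ofReal_re]
  set A1 := ∫ t in Set.Ioi (0 : ℝ), ((om κ (κ / T) t : ℝ) : ℂ) *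
        ((starRingEnd ℂ) (riemannZeta (cl t)) ^ 2 * DP f M t ^ 2 * ev t G) with hA1
  set A2 := ∫ t in Set.Ioi (0 : ℝ), ((om κ (κ / T) t : ℝ) : ℂ) *
        ((starRingEnd ℂ) (riemannZeta (cl t)) ^ 2 * DP f M t ^ 2 * ev t 1) with hA2
  have hint : ∀ G' : DA, Bd B' G' → IntegrableOn (fun t => ((om κ (κ / T) t : ℝ) : ℂ) *
        ((starRingEnd ℂ) (riemannZeta (cl t)) ^ 2 * DP f M t ^ 2 * ev t G')) (Set.Ioi 0) := by
    intro G' hG'
    have hc : Continuous fun t => ev t G' := by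
      simp_rw [ev_apply]
      exact continuous_finsetSum _ fun x hx => continuous_const.mul (mh_cont (hG' x hx).1.1 (hG' x hx).1.2)
    have hb : ∀ t, ‖ev t G'‖ ≤ l1 G' := by
      intro t
      rw [ev_apply]
      refine (norm_sum_le _ _).trans ?_
      unfold l1
      refine sum_le_sum fun x hx => ?_
      rw [norm_mul, Complex.norm_real, Real.norm_eq_abs]
      exact mul_le_of_le_one_right (abs_nonneg _) (mh_norm_le (hG' x hx).1.1 (hG' x hx).1.2)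
    have h1 := Z_int κ hδ (F := fun t => DP f M t ^ 2 * ev t G') (((DP_cont f M).pow 2).mul hc)
      (C := (M:ℝ) ^ 2 * l1 G') fun t => by
        rw [norm_mul, norm_pow]
        exact mul_le_mul (pow_le_pow_left₀ (norm_nonneg _) (DP_norm hK.fb M t) 2) (hb t) (norm_nonneg _) (by positivity)
    refine h1.congr (Eventually.of_forall fun t => ?_)
    simp only
    ring
  have hr1 : (∫ t in Set.Ioi (0:ℝ), om κ (κ / T) t *
        (((starRingEnd ℂ) (riemannZeta (cl t)) ^ 2 * DP f M t ^ 2).re * (ev t G).re)) = A1.re := by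
    have h1 := integral_re (hint G hG)
    simp only [RCLike.re_to_complex] at h1
    rw [hA1, ← h1]
    refine integral_congr_ae (Eventually.of_forall fun t => ?_)
    simp only
    rw [Complex.re_ofReal_mul]
    conv_rhs => rw [hev t]
    rw [Complex.re_mul_ofReal]
  have hr2 : (∫ t in Set.Ioi (0:ℝ), om κ (κ / T) t *
        ((starRingEnd ℂ) (riemannZeta (cl t)) ^ 2 * DP f M t ^ 2).re) = A2.re := by
    have h1 := integral_re (hint 1 hG1)
    simp only [RCLike.re_to_complex] at h1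
    rw [hA2, ← h1]
    refine integral_congr_ae (Eventually.of_forall fun t => ?_)
    simp only
    rw [Complex.re_ofReal_mul, map_one, mul_one]
  rw [hr1, hr2]
  have hfin : |A1.re - lam w2 G * A2.re| ≤ ‖A1 - (lam w2 G : ℂ) * A2‖ := by
    have : A1.re - lam w2 G * A2.re = (A1 - (lam w2 G : ℂ) * A2).re := by
      rw [Complex.sub_re, Complex.re_ofReal_mul]
    rw [this]
    exact Complex.abs_re_le_norm _
  refine hfin.trans ?_
  exact fin_bound hL.le hly hEV hC10.le (EV_low hBL ha) hlam (z1.trans herr1) (z2.trans herr2) hd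

end

end Pool.Agent.TH197.N4_TW1
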